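import Mathlib

set_option autoImplicit false

namespace Pool.Agent.H695R2.Steiner

/-- The Euclidean plane. -/
abbrev Plane := EuclideanSpace ℝ (Fin 2)

/-- The closed straight-line segment joining the two points of an unordered pair. -/
def seg (e : Sym2 Plane) : Set Plane :=
  Sym2.lift ⟨fun a b => segment ℝ a b, fun a b => segment_symm ℝ a b⟩ e

/-- The Euclidean length of the segment joining the two points of an unordered pair. -/
noncomputable def len (e : Sym2 Plane) : ℝ :=
  Sym2.lift ⟨fun a b => dist a b, fun a b => dist_comm a b⟩ e

/-- The three conditions on the edge set `T` over the finite point set `S` (an edge is recorded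
by the unordered pair of its two distinct endpoints): both endpoints of every edge lie in `S`;
no edge contains a point of `S` other than its endpoints; no two edges meet except at a common
endpoint. -/
structure IsPlanar (S : Finset Plane) (T : Finset (Sym2 Plane)) : Prop where
  nondeg : ∀ e ∈ T, ¬ e.IsDiag
  ends : ∀ e ∈ T, ∀ p ∈ e, p ∈ S
  empty : ∀ e ∈ T, ∀ p ∈ S, p ∈ seg e → p ∈ e
  meet : ∀ e ∈ T, ∀ f ∈ T, e ≠ f → ∀ p, p ∈ seg e → p ∈ seg f → p ∈ e ∧ p ∈ f

/-- A triangulation of `S` is a maximal edge set with the three properties. -/
def IsTriangulation (S : Finset Plane) (T : Finset (Sym2 Plane)) : Prop :=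
  IsPlanar S T ∧ ∀ T' : Finset (Sym2 Plane), IsPlanar S T' → T ⊆ T' → T' = T

/-- The weight of a triangulation: the total Euclidean length of its edges. -/
noncomputable def weight (T : Finset (Sym2 Plane)) : ℝ := ∑ e ∈ T, len e

/-- A Steiner triangulation of `P` is a triangulation of some finite set `S ⊇ P`. -/
def IsSteinerTriangulation (P : Finset Plane) (T : Finset (Sym2 Plane)) : Prop :=
  ∃ S : Finset Plane, P ⊆ S ∧ IsTriangulation S T

/-- `W(P)`: the infimum of the weights of the Steiner triangulations of `P`. -/
noncomputable def infWeight (P : Finset Plane) : ℝ :=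
  sInf {w : ℝ | ∃ T : Finset (Sym2 Plane), IsSteinerTriangulation P T ∧ w = weight T}

end Pool.Agent.H695R2.Steiner
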