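import Mathlib
import Pool.Agent.H695R2.Steiner.Defs

set_option autoImplicit false

namespace Pool.Agent.H695R2.Steiner

open Set

theorem seg_mk (a b : Plane) : seg s(a, b) = segment ℝ a b := rfl
theorem len_mk (a b : Plane) : len s(a, b) = dist a b := rfl

theorem mem_segment_iff (a b z : Plane) :
    z ∈ segment ℝ a b ↔ ∃ t : ℝ, 0 ≤ t ∧ t ≤ 1 ∧ z = (1 - t) • a + t • b := by
  rw [segment_eq_image]
  constructor
  · rintro ⟨t, ⟨h0, h1⟩, rfl⟩
    exact ⟨t, h0, h1, rfl⟩
  · rintro ⟨t, h0, h1, rfl⟩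
    exact ⟨t, ⟨h0, h1⟩, rfl⟩

/-- Coordinates as linear maps. -/
noncomputable def cx : Plane →ₗ[ℝ] ℝ := (EuclideanSpace.proj (0 : Fin 2) : Plane →L[ℝ] ℝ).toLinearMap
noncomputable def cy : Plane →ₗ[ℝ] ℝ := (EuclideanSpace.proj (1 : Fin 2) : Plane →L[ℝ] ℝ).toLinearMap

theorem cx_apply (p : Plane) : cx p = p 0 := rfl
theorem cy_apply (p : Plane) : cy p = p 1 := rfl

theorem plane_ext {a b : Plane} (h0 : cx a = cx b) (h1 : cy a = cy b) : a = b := by
  ext i
  fin_cases i
  · exact h0
  · exact h1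

/-- The pair `(u,v)` separates points. -/
def Sep (u v : Plane →ₗ[ℝ] ℝ) : Prop := ∀ a b : Plane, u a = u b → v a = v b → a = b

theorem sep_xy : Sep cx cy := fun _ _ h0 h1 => plane_ext h0 h1
theorem sep_yx : Sep cy cx := fun _ _ h0 h1 => plane_ext h1 h0
theorem Sep.neg {u v : Plane →ₗ[ℝ] ℝ} (h : Sep u v) : Sep u (-v) := by
  intro a b h0 h1
  apply h a b h0
  simpa using h1

theorem dist_eq' (a b : Plane) : dist a b = Real.sqrt ((cx a - cx b) ^ 2 + (cy a - cy b) ^ 2) := by
  rw [EuclideanSpace.dist_eq, Fin.sum_univ_two]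
  simp only [Real.dist_eq, sq_abs]
  rfl

theorem abs_cx_sub_le (a b : Plane) : |cx a - cx b| ≤ dist a b := by
  rw [dist_eq']
  apply Real.abs_le_sqrt
  nlinarith [sq_nonneg (cy a - cy b)]

theorem abs_cy_sub_le (a b : Plane) : |cy a - cy b| ≤ dist a b := by
  rw [dist_eq']
  apply Real.abs_le_sqrt
  nlinarith [sq_nonneg (cx a - cx b)]

/-- Oriented area. -/
noncomputable def D (u v : Plane →ₗ[ℝ] ℝ) (a b z : Plane) : ℝ :=
  (u b - u a) * (v z - v a) - (v b - v a) * (u z - u a)

theorem D_neg (u v : Plane →ₗ[ℝ] ℝ) (a b z : Plane) : D u (-v) a b z = - D u v a b z := by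
  simp only [D, LinearMap.neg_apply]; ring

theorem D_affine (u v : Plane →ₗ[ℝ] ℝ) (a b c d : Plane) (t : ℝ) :
    D u v a b ((1 - t) • c + t • d) = (1 - t) * D u v a b c + t * D u v a b d := by
  simp only [D, map_add, map_smul, smul_eq_mul]; ring

theorem D_self_left (u v : Plane →ₗ[ℝ] ℝ) (a b : Plane) : D u v a b a = 0 := by
  simp [D]

theorem D_self_right (u v : Plane →ₗ[ℝ] ℝ) (a b : Plane) : D u v a b b = 0 := by
  simp only [D]; ring

/-- A point on the line `ab` is `(1-γ) a + γ b`. -/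
theorem exists_param {u v : Plane →ₗ[ℝ] ℝ} (hs : Sep u v) {a b c : Plane} (hab : u a ≠ u b)
    (h : D u v a b c = 0) : ∃ γ : ℝ, c = (1 - γ) • a + γ • b := by
  have hba : u b - u a ≠ 0 := sub_ne_zero.mpr (Ne.symm hab)
  refine ⟨(u c - u a) / (u b - u a), ?_⟩
  apply hs
  · simp only [map_add, map_smul, smul_eq_mul]
    field_simp
    ring
  · simp only [map_add, map_smul, smul_eq_mul]
    simp only [D] at h
    field_simp
    linarith

/-- The non-crossing lemma. -/
theorem nc_lemma {u v : Plane →ₗ[ℝ] ℝ} (hs : Sep u v) {S : Finset Plane} {a b c d z : Plane}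
    (ha : a ∈ S) (hb : b ∈ S) (hc : c ∈ S) (hd : d ∈ S) (hab : u a ≠ u b) (hcd : c ≠ d)
    (hfab : ∀ p ∈ S, p ∈ segment ℝ a b → p = a ∨ p = b)
    (hfcd : ∀ p ∈ S, p ∈ segment ℝ c d → p = c ∨ p = d)
    (hDc : 0 ≤ D u v a b c) (hDd : 0 ≤ D u v a b d)
    (hz : z ∈ segment ℝ a b) (hz' : z ∈ segment ℝ c d) :
    ((z = a ∨ z = b) ∧ (z = c ∨ z = d)) ∨ s(a, b) = s(c, d) := by
  obtain ⟨τ, hτ0, hτ1, hzτ⟩ := (mem_segment_iff a b z).1 hz
  obtain ⟨t, ht0, ht1, hzt⟩ := (mem_segment_iff c d z).1 hz'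
  have hDz : D u v a b z = 0 := by
    rw [hzτ, D_affine, D_self_left, D_self_right]; ring
  have hD2 : (1 - t) * D u v a b c + t * D u v a b d = 0 := by
    rw [← D_affine, ← hzt]; exact hDz
  rcases eq_or_lt_of_le ht0 with h | ht0'
  · -- z = c
    left
    have hzc : z = c := by rw [hzt, ← h]; simp
    refine ⟨?_, Or.inl hzc⟩
    rw [hzc]
    apply hfab c hc
    rw [← hzc]; exact hz
  rcases eq_or_lt_of_le ht1 with h | ht1'
  · left
    have hzc : z = d := by rw [hzt, h]; simp
    refine ⟨?_, Or.inr hzc⟩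
    rw [hzc]
    apply hfab d hd
    rw [← hzc]; exact hz
  have hDc0 : D u v a b c = 0 := by
    nlinarith [mul_nonneg (sub_nonneg.2 ht1) hDc, mul_nonneg ht0 hDd]
  have hDd0 : D u v a b d = 0 := by
    nlinarith [mul_nonneg (sub_nonneg.2 ht1) hDc, mul_nonneg ht0 hDd]
  rcases eq_or_lt_of_le hτ0 with h | hτ0'
  · left
    have hzc : z = a := by rw [hzτ, ← h]; simp
    refine ⟨Or.inl hzc, ?_⟩
    rw [hzc]
    apply hfcd a ha
    rw [← hzc]; exact hz'
  rcases eq_or_lt_of_le hτ1 with h | hτ1'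
  · left
    have hzc : z = b := by rw [hzτ, h]; simp
    refine ⟨Or.inr hzc, ?_⟩
    rw [hzc]
    apply hfcd b hb
    rw [← hzc]; exact hz'
  right
  obtain ⟨γ, hγ⟩ := exists_param hs hab hDc0
  obtain ⟨δ, hδ⟩ := exists_param hs hab hDd0
  have hba : u b - u a ≠ 0 := sub_ne_zero.mpr (Ne.symm hab)
  -- τ = (1-t) γ + t δ
  have hτeq : τ = (1 - t) * γ + t * δ := by
    have h1 : u z = (1 - τ) * u a + τ * u b := by
      rw [hzτ]; simp only [map_add, map_smul, smul_eq_mul]
    have h2 : u z = (1 - t) * ((1 - γ) * u a + γ * u b) + t * ((1 - δ) * u a + δ * u b) := by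
      rw [hzt, hγ, hδ]; simp only [map_add, map_smul, smul_eq_mul]
    have h3 : (τ - ((1 - t) * γ + t * δ)) * (u b - u a) = 0 := by
      have := h1.symm.trans h2
      linarith
    rcases mul_eq_zero.1 h3 with h | h
    · linarith
    · exact absurd h hba
  have key : ∀ x : Plane, x ∈ S → ∀ ξ : ℝ, x = (1 - ξ) • a + ξ • b → ξ ≤ 0 ∨ 1 ≤ ξ := by
    intro x hx ξ hξ
    by_contra hcon
    push Not at hcon
    have hmem : x ∈ segment ℝ a b := (mem_segment_iff a b x).2 ⟨ξ, hcon.1.le, hcon.2.le, hξ⟩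
    rcases hfab x hx hmem with h | h
    · have : u x = u a := by rw [h]
      rw [hξ] at this
      simp only [map_add, map_smul, smul_eq_mul] at this
      have : ξ * (u b - u a) = 0 := by linarith
      rcases mul_eq_zero.1 this with h | h
      · linarith [hcon.1]
      · exact hba h
    · have : u x = u b := by rw [h]
      rw [hξ] at this
      simp only [map_add, map_smul, smul_eq_mul] at this
      have : (1 - ξ) * (u b - u a) = 0 := by linarith
      rcases mul_eq_zero.1 this with h | h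
      · linarith [hcon.2]
      · exact hba h
  have hγc := key c hc γ hγ
  have hδc := key d hd δ hδ
  have mem_of : ∀ σ : ℝ, (γ ≤ σ ∧ σ ≤ δ) ∨ (δ ≤ σ ∧ σ ≤ γ) → γ ≠ δ →
      (1 - σ) • a + σ • b ∈ segment ℝ c d := by
    intro σ hσ hne
    rw [mem_segment_iff]
    have hne' : δ - γ ≠ 0 := sub_ne_zero.mpr (Ne.symm hne)
    refine ⟨(σ - γ) / (δ - γ), ?_, ?_, ?_⟩
    · rcases hσ with ⟨h1, h2⟩ | ⟨h1, h2⟩
      · exact div_nonneg (by linarith) (by linarith)
      · exact div_nonneg_of_nonpos (by linarith) (by linarith)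
    · rcases hσ with ⟨h1, h2⟩ | ⟨h1, h2⟩
      · rw [div_le_one (lt_of_le_of_ne (by linarith) (Ne.symm hne'))]; linarith
      · rw [div_le_one_of_neg (lt_of_le_of_ne (by linarith) hne')]; linarith
    · rw [hγ, hδ]
      have e1 : σ = (1 - (σ - γ) / (δ - γ)) * γ + ((σ - γ) / (δ - γ)) * δ := by
        field_simp
        ring
      set ρ := (σ - γ) / (δ - γ)
      have : (1 - σ) • a + σ • b = (1 - ((1 - ρ) * γ + ρ * δ)) • a + ((1 - ρ) * γ + ρ * δ) • b := by
        rw [← e1]
      rw [this]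
      module
  have hne : γ ≠ δ := by
    intro h
    apply hcd
    rw [hγ, hδ, h]
  have h01 : ((γ ≤ 0 ∧ 1 ≤ δ) ∨ (δ ≤ 0 ∧ 1 ≤ γ)) := by
    rcases hγc with h1 | h1 <;> rcases hδc with h2 | h2
    · exfalso; nlinarith
    · exact Or.inl ⟨h1, h2⟩
    · exact Or.inr ⟨h2, h1⟩
    · exfalso
      have : 1 ≤ (1 - t) * γ + t * δ := by nlinarith
      linarith
  have hacd : a ∈ segment ℝ c d := by
    have := mem_of 0 (by rcases h01 with ⟨h1, h2⟩ | ⟨h1, h2⟩
                         · left; constructor <;> linarith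
                         · right; constructor <;> linarith) hne
    simpa using this
  have hbcd : b ∈ segment ℝ c d := by
    have := mem_of 1 (by rcases h01 with ⟨h1, h2⟩ | ⟨h1, h2⟩
                         · left; constructor <;> linarith
                         · right; constructor <;> linarith) hne
    simpa using this
  have hane : a ≠ b := fun h => hab (by rw [h])
  rcases hfcd a ha hacd with h1 | h1 <;> rcases hfcd b hb hbcd with h2 | h2
  · exact absurd (h1.trans h2.symm) hane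
  · rw [h1, h2]
  · rw [h1, h2]; exact Sym2.eq_swap
  · exact absurd (h1.trans h2.symm) hane

/-- Consequence of maximality: a free segment is an edge. -/
theorem mem_of_free {S : Finset Plane} {T : Finset (Sym2 Plane)} (hT : IsTriangulation S T)
    {a b : Plane} (ha : a ∈ S) (hb : b ∈ S) (hab : a ≠ b)
    (hfree : ∀ p ∈ S, p ∈ segment ℝ a b → p = a ∨ p = b)
    (hnc : ∀ f ∈ T, f ≠ s(a, b) → ∀ z, z ∈ seg f → z ∈ segment ℝ a b → (z = a ∨ z = b) ∧ z ∈ f) :
    s(a, b) ∈ T := by
  classical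
  by_contra hcon
  have hP : IsPlanar S (insert s(a, b) T) := by
    refine ⟨?_, ?_, ?_, ?_⟩
    · intro e he
      rcases Finset.mem_insert.1 he with rfl | he
      · simpa using hab
      · exact hT.1.nondeg e he
    · intro e he p hp
      rcases Finset.mem_insert.1 he with rfl | he
      · rcases Sym2.mem_iff.1 hp with rfl | rfl
        · exact ha
        · exact hb
      · exact hT.1.ends e he p hp
    · intro e he p hp hpe
      rcases Finset.mem_insert.1 he with rfl | he
      · exact Sym2.mem_iff.2 (hfree p hp hpe)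
      · exact hT.1.empty e he p hp hpe
    · intro e he f hf hef z hze hzf
      rcases Finset.mem_insert.1 he with rfl | he
      · rcases Finset.mem_insert.1 hf with rfl | hf
        · exact absurd rfl hef
        · have := hnc f hf (Ne.symm hef) z hzf hze
          exact ⟨Sym2.mem_iff.2 this.1, this.2⟩
      · rcases Finset.mem_insert.1 hf with rfl | hf
        · have := hnc e he hef z hze hzf
          exact ⟨this.2, Sym2.mem_iff.2 this.1⟩
        · exact hT.1.meet e he f hf hef z hze hzf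
  have := hT.2 _ hP (Finset.subset_insert _ _)
  apply hcon
  rw [← this]
  exact Finset.mem_insert_self _ _

/-- `s(a,b)` in a triangulation is free of other points. -/
theorem free_of_mem {S : Finset Plane} {T : Finset (Sym2 Plane)} (hT : IsPlanar S T)
    {a b : Plane} (h : s(a, b) ∈ T) : ∀ p ∈ S, p ∈ segment ℝ a b → p = a ∨ p = b := by
  intro p hp hps
  exact Sym2.mem_iff.1 (hT.empty _ h p hp hps)

theorem ne_of_mem {S : Finset Plane} {T : Finset (Sym2 Plane)} (hT : IsPlanar S T)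
    {a b : Plane} (h : s(a, b) ∈ T) : a ≠ b := by
  have := hT.nondeg _ h
  simpa using this

end Pool.Agent.H695R2.Steiner
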