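import Mathlib
import Pool.Agent.H695R2.Steiner.Basic

set_option autoImplicit false

namespace Pool.Agent.H695R2.Steiner

open Set MeasureTheory
open scoped Pointwise

/-- The image, under `f`, of the part of the segment lying in `R`. -/
def img (f : Plane →ₗ[ℝ] ℝ) (R : Set Plane) (e : Sym2 Plane) : Set ℝ :=
  {t | ∃ z ∈ seg e, z ∈ R ∧ f z = t}

theorem seg_convex (e : Sym2 Plane) : Convex ℝ (seg e) := by
  induction e using Sym2.ind with
  | _ a b => exact convex_segment a b

theorem img_eq (f : Plane →ₗ[ℝ] ℝ) (R : Set Plane) (e : Sym2 Plane) :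
    img f R e = f '' (seg e ∩ R) := by
  ext t
  constructor
  · rintro ⟨z, h1, h2, h3⟩; exact ⟨z, ⟨h1, h2⟩, h3⟩
  · rintro ⟨z, ⟨h1, h2⟩, h3⟩; exact ⟨z, h1, h2, h3⟩

theorem img_measurable (f : Plane →ₗ[ℝ] ℝ) {R : Set Plane} (hR : Convex ℝ R) (e : Sym2 Plane) :
    MeasurableSet (img f R e) := by
  rw [img_eq]
  exact (((seg_convex e).inter hR).linear_image f).ordConnected.measurableSet

theorem volume_affine_image (α β L : ℝ) (hβ : |β| ≤ L) (I : Set ℝ) :
    volume ((fun τ => α + τ * β) '' I) ≤ ENNReal.ofReal L * volume I := by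
  have h1 : (fun τ => α + τ * β) '' I = (fun x => α + x) '' (β • I) := by
    rw [← Set.image_smul, Set.image_image]
    congr 1
    ext τ
    simp [mul_comm]
  rw [h1, Set.image_add_left, measure_preimage_add, Measure.addHaar_smul]
  simp only [Module.finrank_self, pow_one]
  gcongr

theorem sum_img_le {ι : Type} [Fintype ι] (R : ι → Set Plane) (hR : ∀ i, Convex ℝ (R i))
    (hdisj : Pairwise (Function.onFun Disjoint R)) (f : ι → Plane →ₗ[ℝ] ℝ)
    (hf : ∀ i a b, |f i a - f i b| ≤ dist a b) (e : Sym2 Plane) :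
    ∑ i, volume (img (f i) (R i) e) ≤ ENNReal.ofReal (len e) := by
  induction e using Sym2.ind with
  | _ a b =>
    set γ : ℝ → Plane := fun τ => (1 - τ) • a + τ • b with hγ
    set I : ι → Set ℝ := fun i => Icc 0 1 ∩ γ ⁻¹' (R i) with hI
    have hIconv : ∀ i, Convex ℝ (I i) := by
      intro i
      apply (convex_Icc 0 1).inter
      have : γ = AffineMap.lineMap a b := by
        ext τ
        simp [hγ, AffineMap.lineMap_apply_module]
      rw [this]
      exact (hR i).affine_preimage _
    have hImeas : ∀ i, MeasurableSet (I i) := fun i => (hIconv i).ordConnected.measurableSet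
    have himg : ∀ i, img (f i) (R i) s(a, b) ⊆
        (fun τ => f i a + τ * (f i b - f i a)) '' (I i) := by
      intro i t ht
      obtain ⟨z, hz, hzR, hzt⟩ := ht
      rw [seg_mk, mem_segment_iff] at hz
      obtain ⟨τ, h0, h1, rfl⟩ := hz
      refine ⟨τ, ⟨⟨h0, h1⟩, hzR⟩, ?_⟩
      rw [← hzt]
      simp only [map_add, map_smul, smul_eq_mul]
      ring
    have hle : ∀ i, volume (img (f i) (R i) s(a, b)) ≤ ENNReal.ofReal (len s(a, b)) * volume (I i) := by
      intro i
      refine (measure_mono (himg i)).trans ?_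
      apply volume_affine_image
      rw [len_mk, dist_comm]
      exact hf i b a
    calc ∑ i, volume (img (f i) (R i) s(a, b))
        ≤ ∑ i, ENNReal.ofReal (len s(a, b)) * volume (I i) := Finset.sum_le_sum (fun i _ => hle i)
      _ = ENNReal.ofReal (len s(a, b)) * ∑ i, volume (I i) := by rw [Finset.mul_sum]
      _ = ENNReal.ofReal (len s(a, b)) * volume (⋃ i, I i) := by
          rw [measure_iUnion]
          · rw [tsum_fintype]
          · intro i j hij
            have := hdisj hij
            simp only [Function.onFun, hI] at this ⊢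
            exact Disjoint.mono inter_subset_right inter_subset_right (this.preimage γ)
          · exact hImeas
      _ ≤ ENNReal.ofReal (len s(a, b)) * volume (Icc (0:ℝ) 1) := by
          gcongr
          exact iUnion_subset (fun i => inter_subset_left)
      _ = ENNReal.ofReal (len s(a, b)) := by simp

open Classical in
theorem count_le (T : Finset (Sym2 Plane)) (f : Plane →ₗ[ℝ] ℝ) {R : Set Plane}
    (hR : Convex ℝ R) (lo hi : ℝ) (k : ℕ) (bad : Set ℝ) (hbad : bad.Finite)
    (h : ∀ t, lo < t → t < hi → t ∉ bad → k ≤ (T.filter (fun e => t ∈ img f R e)).card) :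
    (k : ENNReal) * ENNReal.ofReal (hi - lo) ≤ ∑ e ∈ T, volume (img f R e) := by
  have h1 : ∑ e ∈ T, volume (img f R e) = ∫⁻ t, ∑ e ∈ T, (img f R e).indicator 1 t := by
    rw [lintegral_finsetSum]
    · apply Finset.sum_congr rfl
      intro e _
      rw [lintegral_indicator_one (img_measurable f hR e)]
    · intro e _
      exact measurable_const.indicator (img_measurable f hR e)
  rw [h1]
  have h2 : (k : ENNReal) * ENNReal.ofReal (hi - lo) = ∫⁻ _ in Ioo lo hi, (k : ENNReal) := by
    rw [setLIntegral_const, Real.volume_Ioo]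
  rw [h2]
  rw [← lintegral_indicator measurableSet_Ioo]
  apply lintegral_mono_ae
  have hb : ∀ᵐ t : ℝ, t ∉ bad := by
    have : volume bad = 0 := hbad.measure_zero _
    exact measure_eq_zero_iff_ae_notMem.1 this
  filter_upwards [hb] with t ht
  by_cases hmem : t ∈ Ioo lo hi
  · rw [indicator_of_mem hmem]
    have h3 := h t hmem.1 hmem.2 ht
    have h4 : ∑ e ∈ T, (img f R e).indicator (1 : ℝ → ENNReal) t
        = ((T.filter (fun e => t ∈ img f R e)).card : ENNReal) := by
      rw [Finset.card_filter]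
      push_cast
      apply Finset.sum_congr rfl
      intro e _
      by_cases he : t ∈ img f R e
      · simp [he]
      · simp [he]
    rw [h4]
    exact_mod_cast h3
  · rw [indicator_of_notMem hmem]
    exact zero_le

theorem len_nonneg (e : Sym2 Plane) : 0 ≤ len e := by
  induction e using Sym2.ind with
  | _ a b => rw [len_mk]; exact dist_nonneg

open Classical in
/-- The counting inequality: disjoint convex regions `R i`, 1-Lipschitz functionals `f i`; if for
almost all `t` in the interval `(lo i, hi i)` at least `k i` segments of `T` have a point `z` in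
`R i` with `f i z = t`, then `∑ k i (hi i - lo i) ≤ ∑ length`. -/
theorem main_ineq {ι : Type} [Fintype ι] (T : Finset (Sym2 Plane)) (R : ι → Set Plane)
    (hR : ∀ i, Convex ℝ (R i)) (hdisj : Pairwise (Function.onFun Disjoint R))
    (f : ι → Plane →ₗ[ℝ] ℝ) (hf : ∀ i a b, |f i a - f i b| ≤ dist a b)
    (lo hi : ι → ℝ) (k : ι → ℕ) (bad : Set ℝ) (hbad : bad.Finite)
    (h : ∀ i, ∀ t, lo i < t → t < hi i → t ∉ bad →
      k i ≤ (T.filter (fun e => t ∈ img (f i) (R i) e)).card) :
    ∑ i, (k i : ℝ) * max 0 (hi i - lo i) ≤ ∑ e ∈ T, len e := by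
  have h1 : ∑ i, (k i : ENNReal) * ENNReal.ofReal (hi i - lo i) ≤ ∑ e ∈ T, ENNReal.ofReal (len e) := by
    calc ∑ i, (k i : ENNReal) * ENNReal.ofReal (hi i - lo i)
        ≤ ∑ i, ∑ e ∈ T, volume (img (f i) (R i) e) :=
          Finset.sum_le_sum (fun i _ => count_le T (f i) (hR i) (lo i) (hi i) (k i) bad hbad (h i))
      _ = ∑ e ∈ T, ∑ i, volume (img (f i) (R i) e) := Finset.sum_comm
      _ ≤ ∑ e ∈ T, ENNReal.ofReal (len e) :=
          Finset.sum_le_sum (fun e _ => sum_img_le R hR hdisj f hf e)
  have h2 : ∑ e ∈ T, ENNReal.ofReal (len e) = ENNReal.ofReal (∑ e ∈ T, len e) := by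
    rw [ENNReal.ofReal_sum_of_nonneg (fun e _ => len_nonneg e)]
  have h3 : ∑ i, (k i : ENNReal) * ENNReal.ofReal (hi i - lo i)
      = ENNReal.ofReal (∑ i, (k i : ℝ) * max 0 (hi i - lo i)) := by
    rw [ENNReal.ofReal_sum_of_nonneg]
    · apply Finset.sum_congr rfl
      intro i _
      rw [ENNReal.ofReal_mul (Nat.cast_nonneg _), ENNReal.ofReal_natCast]
      congr 1
      rw [max_comm, ENNReal.ofReal_max]
      simp
    · intro i _
      positivity
  rw [h2, h3] at h1
  exact (ENNReal.ofReal_le_ofReal_iff (Finset.sum_nonneg (fun e _ => len_nonneg e))).1 h1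

end Pool.Agent.H695R2.Steiner
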