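import Mathlib
import Pool.Agent.H695R2.Steiner.Basic

set_option autoImplicit false

namespace Pool.Agent.H695R2.Steiner

open Set

variable {u v : Plane →ₗ[ℝ] ℝ}

/-- The `v`-coordinate at which the line `ab` crosses `u = t`. -/
noncomputable def pos (u v : Plane →ₗ[ℝ] ℝ) (t : ℝ) (a b : Plane) : ℝ :=
  (v a * (u b - t) + v b * (t - u a)) / (u b - u a)

noncomputable def slope' (u v : Plane →ₗ[ℝ] ℝ) (a b : Plane) : ℝ :=
  (v b - v a) / (u b - u a)

theorem pos_sub_left (u v : Plane →ₗ[ℝ] ℝ) (t : ℝ) {a b z : Plane} (h1 : u a < u b)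
    (h2 : u z < u b) :
    pos u v t z b - pos u v t a b = (u b - t) * D u v a b z / ((u b - u z) * (u b - u a)) := by
  have e1 : u b - u a ≠ 0 := by linarith [sub_pos.2 h1]
  have e2 : u b - u z ≠ 0 := by linarith [sub_pos.2 h2]
  simp only [pos, D]
  field_simp
  ring

theorem pos_sub_right (u v : Plane →ₗ[ℝ] ℝ) (t : ℝ) {a b z : Plane} (h1 : u a < u b)
    (h2 : u a < u z) :
    pos u v t a z - pos u v t a b = (t - u a) * D u v a b z / ((u z - u a) * (u b - u a)) := by
  have e1 : u b - u a ≠ 0 := by linarith [sub_pos.2 h1]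
  have e2 : u z - u a ≠ 0 := by linarith [sub_pos.2 h2]
  simp only [pos, D]
  field_simp
  ring

theorem slope_sub_left (u v : Plane →ₗ[ℝ] ℝ) {a b z : Plane} (h1 : u a < u b)
    (h2 : u z < u b) :
    slope' u v z b - slope' u v a b = - D u v a b z / ((u b - u z) * (u b - u a)) := by
  have e1 : u b - u a ≠ 0 := by linarith [sub_pos.2 h1]
  have e2 : u b - u z ≠ 0 := by linarith [sub_pos.2 h2]
  simp only [slope', D]
  field_simp
  ring

theorem slope_sub_right (u v : Plane →ₗ[ℝ] ℝ) {a b z : Plane} (h1 : u a < u b)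
    (h2 : u a < u z) :
    slope' u v a z - slope' u v a b = D u v a b z / ((u z - u a) * (u b - u a)) := by
  have e1 : u b - u a ≠ 0 := by linarith [sub_pos.2 h1]
  have e2 : u z - u a ≠ 0 := by linarith [sub_pos.2 h2]
  simp only [slope', D]
  field_simp

/-- choose a minimiser of `F` on pairs `A × B`, of minimal width among the minimisers. -/
theorem exists_lex_min (S : Finset Plane) (t : ℝ) (F : Plane → Plane → ℝ)
    (hA : ∃ a ∈ S, u a < t) (hB : ∃ b ∈ S, t < u b) :
    ∃ a ∈ S, ∃ b ∈ S, u a < t ∧ t < u b ∧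
      (∀ a' ∈ S, ∀ b' ∈ S, u a' < t → t < u b' → F a b ≤ F a' b') ∧
      (∀ a' ∈ S, ∀ b' ∈ S, u a' < t → t < u b' → F a' b' = F a b → u b - u a ≤ u b' - u a') := by
  classical
  set Q := (S ×ˢ S).filter (fun p => u p.1 < t ∧ t < u p.2) with hQ
  obtain ⟨a0, ha0, ha0'⟩ := hA
  obtain ⟨b0, hb0, hb0'⟩ := hB
  have hne : Q.Nonempty := ⟨(a0, b0), by simp [hQ, ha0, hb0, ha0', hb0']⟩
  obtain ⟨p, hp, hpmin⟩ := Finset.exists_min_image Q (fun p => F p.1 p.2) hne
  set Q' := Q.filter (fun q => F q.1 q.2 = F p.1 p.2) with hQ'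
  have hne' : Q'.Nonempty := ⟨p, by simp [hQ', hp]⟩
  obtain ⟨q, hq, hqmin⟩ := Finset.exists_min_image Q' (fun q => u q.2 - u q.1) hne'
  have hqQ : q ∈ Q ∧ F q.1 q.2 = F p.1 p.2 := by simpa [hQ'] using hq
  have hqQ' : (q.1 ∈ S ∧ q.2 ∈ S) ∧ (u q.1 < t ∧ t < u q.2) := by
    have := hqQ.1
    rw [hQ, Finset.mem_filter, Finset.mem_product] at this
    exact this
  refine ⟨q.1, hqQ'.1.1, q.2, hqQ'.1.2, hqQ'.2.1, hqQ'.2.2, ?_, ?_⟩
  · intro a' ha' b' hb' h1 h2
    rw [hqQ.2]
    exact hpmin (a', b') (by simp [hQ, ha', hb', h1, h2])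
  · intro a' ha' b' hb' h1 h2 h3
    apply hqmin (a', b')
    rw [hQ', Finset.mem_filter]
    refine ⟨by simp [hQ, ha', hb', h1, h2], ?_⟩
    simp only
    rw [h3, hqQ.2]

theorem param_between {a b z : Plane} (hz : z ∈ segment ℝ a b) (hab : u a < u b)
    (hza : z ≠ a) (hzb : z ≠ b) : u a < u z ∧ u z < u b ∧ D u v a b z = 0 := by
  obtain ⟨t, h0, h1, rfl⟩ := (mem_segment_iff a b z).1 hz
  have ht0 : t ≠ 0 := by
    rintro rfl; apply hza; simp
  have ht1 : t ≠ 1 := by
    rintro rfl; apply hzb; simp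
  have h0' : 0 < t := lt_of_le_of_ne h0 (Ne.symm ht0)
  have h1' : t < 1 := lt_of_le_of_ne h1 ht1
  refine ⟨?_, ?_, ?_⟩
  · simp only [map_add, map_smul, smul_eq_mul]; nlinarith
  · simp only [map_add, map_smul, smul_eq_mul]; nlinarith
  · rw [D_affine, D_self_left, D_self_right]; ring

/-- Existence of the lower hull edge over `u = t`. -/
theorem hull_edge (hs : Sep u v) {S : Finset Plane} {T : Finset (Sym2 Plane)}
    (hT : IsTriangulation S T) (t : ℝ) (hgen : ∀ z ∈ S, u z ≠ t)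
    (hA : ∃ a ∈ S, u a < t) (hB : ∃ b ∈ S, t < u b) :
    ∃ a ∈ S, ∃ b ∈ S, u a < t ∧ t < u b ∧ s(a, b) ∈ T ∧ (∀ z ∈ S, 0 ≤ D u v a b z) ∧
      (∀ a' ∈ S, ∀ b' ∈ S, u a' < t → t < u b' → pos u v t a b ≤ pos u v t a' b') := by
  obtain ⟨a, ha, b, hb, hat, htb, hmin, htie⟩ := exists_lex_min (u := u) S t (pos u v t) hA hB
  have hab : u a < u b := hat.trans htb
  have hD : ∀ z ∈ S, 0 ≤ D u v a b z := by
    intro z hz
    rcases lt_or_gt_of_ne (hgen z hz) with h | h
    · have h1 := hmin z hz b hb h htb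
      have h2 := pos_sub_left u v t hab (h.trans htb)
      have h3 : 0 ≤ (u b - t) * D u v a b z / ((u b - u z) * (u b - u a)) := by
        rw [← h2]; linarith
      have h4 : 0 < (u b - u z) * (u b - u a) := mul_pos (by linarith) (by linarith)
      have h5 := (div_nonneg_iff.1 h3)
      rcases h5 with ⟨h5, _⟩ | ⟨_, h6⟩
      · exact nonneg_of_mul_nonneg_right h5 (by linarith)
      · linarith
    · have h1 := hmin a ha z hz hat h
      have h2 := pos_sub_right u v t hab (hat.trans h)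
      have h3 : 0 ≤ (t - u a) * D u v a b z / ((u z - u a) * (u b - u a)) := by
        rw [← h2]; linarith
      have h4 : 0 < (u z - u a) * (u b - u a) := mul_pos (by linarith) (by linarith)
      have h5 := (div_nonneg_iff.1 h3)
      rcases h5 with ⟨h5, _⟩ | ⟨_, h6⟩
      · exact nonneg_of_mul_nonneg_right h5 (by linarith)
      · linarith
  have hfree : ∀ p ∈ S, p ∈ segment ℝ a b → p = a ∨ p = b := by
    intro p hp hps
    by_contra hcon
    push Not at hcon
    obtain ⟨h1, h2, h3⟩ := param_between (v := v) hps hab hcon.1 hcon.2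
    rcases lt_or_gt_of_ne (hgen p hp) with h | h
    · have e := pos_sub_left u v t hab (h.trans htb)
      rw [h3] at e
      have := htie p hp b hb h htb (by linarith [show pos u v t p b - pos u v t a b = 0 by rw [e]; simp])
      linarith
    · have e := pos_sub_right u v t hab (hat.trans h)
      rw [h3] at e
      have := htie a ha p hp hat h (by linarith [show pos u v t a p - pos u v t a b = 0 by rw [e]; simp])
      linarith
  refine ⟨a, ha, b, hb, hat, htb, ?_, hD, hmin⟩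
  apply mem_of_free hT ha hb (fun h => by rw [h] at hab; exact lt_irrefl _ hab) hfree
  intro f hf hne z hzf hz
  induction f using Sym2.ind with
  | _ c d =>
    have hc : c ∈ S := hT.1.ends _ hf c (Sym2.mem_mk_left c d)
    have hd : d ∈ S := hT.1.ends _ hf d (Sym2.mem_mk_right c d)
    have := nc_lemma hs ha hb hc hd hab.ne (ne_of_mem hT.1 hf) hfree (free_of_mem hT.1 hf)
      (hD c hc) (hD d hd) hz hzf
    rcases this with h | h
    · exact ⟨h.1, Sym2.mem_iff.2 h.2⟩
    · exact absurd h.symm hne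

/-- The edge `e` crosses the line `u = t`. -/
def Cr (u : Plane →ₗ[ℝ] ℝ) (t : ℝ) (e : Sym2 Plane) : Prop :=
  (∃ p ∈ e, u p < t) ∧ (∃ p ∈ e, t < u p)

theorem cr_mk {t : ℝ} {a b : Plane} (h1 : u a < t) (h2 : t < u b) : Cr u t s(a, b) :=
  ⟨⟨a, Sym2.mem_mk_left a b, h1⟩, ⟨b, Sym2.mem_mk_right a b, h2⟩⟩

theorem cr_iff {t : ℝ} {a b : Plane} : Cr u t s(a, b) ↔
    (u a < t ∧ t < u b) ∨ (u b < t ∧ t < u a) := by
  constructor
  · rintro ⟨⟨p, hp, h1⟩, ⟨q, hq, h2⟩⟩
    rcases Sym2.mem_iff.1 hp with rfl | rfl <;> rcases Sym2.mem_iff.1 hq with rfl | rfl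
    · linarith
    · exact Or.inl ⟨h1, h2⟩
    · exact Or.inr ⟨h1, h2⟩
    · linarith
  · rintro (⟨h1, h2⟩ | ⟨h1, h2⟩)
    · exact cr_mk h1 h2
    · rw [Sym2.eq_swap]; exact cr_mk h1 h2

/-- Existence of an inner tangent. -/
theorem inner_tangent (hs : Sep u v) {S : Finset Plane} {T : Finset (Sym2 Plane)}
    (hT : IsTriangulation S T) (t : ℝ) (hgen : ∀ z ∈ S, u z ≠ t)
    (hA : ∃ a ∈ S, u a < t) (hB : ∃ b ∈ S, t < u b)
    (hull : ∀ f ∈ T, Cr u t f → ∃ c d, f = s(c, d) ∧ u c < t ∧ t < u d ∧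
      ((∀ z ∈ S, 0 ≤ D u v c d z) ∨ (∀ z ∈ S, 0 ≤ D u (-v) c d z))) :
    ∃ a ∈ S, ∃ b ∈ S, u a < t ∧ t < u b ∧ s(a, b) ∈ T ∧
      (∀ z ∈ S, u z < t → D u v a b z ≤ 0) ∧ (∀ z ∈ S, t < u z → 0 ≤ D u v a b z) := by
  obtain ⟨a, ha, b, hb, hat, htb, hmin, htie⟩ := exists_lex_min (u := u) S t (slope' u v) hA hB
  have hab : u a < u b := hat.trans htb
  have hDA : ∀ z ∈ S, u z < t → D u v a b z ≤ 0 := by
    intro z hz h
    have h1 := hmin z hz b hb h htb
    have h2 := slope_sub_left u v hab (h.trans htb)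
    have h3 : 0 ≤ - D u v a b z / ((u b - u z) * (u b - u a)) := by
      rw [← h2]; linarith
    have h4 : 0 < (u b - u z) * (u b - u a) := mul_pos (by linarith) (by linarith)
    rcases (div_nonneg_iff.1 h3) with ⟨h5, _⟩ | ⟨_, h6⟩
    · linarith
    · linarith
  have hDB : ∀ z ∈ S, t < u z → 0 ≤ D u v a b z := by
    intro z hz h
    have h1 := hmin a ha z hz hat h
    have h2 := slope_sub_right u v hab (hat.trans h)
    have h3 : 0 ≤ D u v a b z / ((u z - u a) * (u b - u a)) := by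
      rw [← h2]; linarith
    have h4 : 0 < (u z - u a) * (u b - u a) := mul_pos (by linarith) (by linarith)
    rcases (div_nonneg_iff.1 h3) with ⟨h5, _⟩ | ⟨_, h6⟩
    · exact h5
    · linarith
  have hfree : ∀ p ∈ S, p ∈ segment ℝ a b → p = a ∨ p = b := by
    intro p hp hps
    by_contra hcon
    push Not at hcon
    obtain ⟨h1, h2, h3⟩ := param_between (v := v) hps hab hcon.1 hcon.2
    rcases lt_or_gt_of_ne (hgen p hp) with h | h
    · have e := slope_sub_left u v hab (h.trans htb)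
      rw [h3] at e
      have := htie p hp b hb h htb (by linarith [show slope' u v p b - slope' u v a b = 0 by rw [e]; simp])
      linarith
    · have e := slope_sub_right u v hab (hat.trans h)
      rw [h3] at e
      have := htie a ha p hp hat h (by linarith [show slope' u v a p - slope' u v a b = 0 by rw [e]; simp])
      linarith
  refine ⟨a, ha, b, hb, hat, htb, ?_, hDA, hDB⟩
  have hne_ab : a ≠ b := fun h => by rw [h] at hab; exact lt_irrefl _ hab
  apply mem_of_free hT ha hb hne_ab hfree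
  intro f hf hne z hzf hz
  by_cases hcr : Cr u t f
  · obtain ⟨c, d, rfl, hct, htd, hh⟩ := hull f hf hcr
    have hc : c ∈ S := hT.1.ends _ hf c (Sym2.mem_mk_left c d)
    have hd : d ∈ S := hT.1.ends _ hf d (Sym2.mem_mk_right c d)
    have hcd : u c < u d := hct.trans htd
    rcases hh with hh | hh
    · have := nc_lemma hs hc hd ha hb hcd.ne hne_ab (free_of_mem hT.1 hf) hfree
        (hh a ha) (hh b hb) hzf hz
      rcases this with h | h
      · exact ⟨h.2, Sym2.mem_iff.2 h.1⟩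
      · exact absurd h hne
    · have := nc_lemma hs.neg hc hd ha hb hcd.ne hne_ab (free_of_mem hT.1 hf) hfree
        (hh a ha) (hh b hb) hzf hz
      rcases this with h | h
      · exact ⟨h.2, Sym2.mem_iff.2 h.1⟩
      · exact absurd h hne
  · induction f using Sym2.ind with
    | _ c d =>
      have hc : c ∈ S := hT.1.ends _ hf c (Sym2.mem_mk_left c d)
      have hd : d ∈ S := hT.1.ends _ hf d (Sym2.mem_mk_right c d)
      rw [cr_iff] at hcr
      push Not at hcr
      rcases lt_or_gt_of_ne (hgen c hc) with h1 | h1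
      · have h2 : u d < t := lt_of_le_of_ne (hcr.1 h1) (hgen d hd)
        have := nc_lemma hs.neg ha hb hc hd hab.ne (ne_of_mem hT.1 hf) hfree (free_of_mem hT.1 hf)
          (by rw [D_neg]; linarith [hDA c hc h1]) (by rw [D_neg]; linarith [hDA d hd h2]) hz hzf
        rcases this with h | h
        · exact ⟨h.1, Sym2.mem_iff.2 h.2⟩
        · exact absurd h.symm hne
      · have h2 : t < u d := by
          rcases lt_or_gt_of_ne (hgen d hd) with h2 | h2
          · linarith [hcr.2 h2]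
          · exact h2
        have := nc_lemma hs ha hb hc hd hab.ne (ne_of_mem hT.1 hf) hfree (free_of_mem hT.1 hf)
          (hDB c hc h1) (hDB d hd h2) hz hzf
        rcases this with h | h
        · exact ⟨h.1, Sym2.mem_iff.2 h.2⟩
        · exact absurd h.symm hne

/-- The set is not contained in a line. -/
def Noncol (u v : Plane →ₗ[ℝ] ℝ) (S : Finset Plane) : Prop :=
  ∃ p ∈ S, ∃ q ∈ S, ∃ r ∈ S, D u v p q r ≠ 0

theorem not_noncol {S : Finset Plane} {a b : Plane} (hab : u a < u b)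
    (h : ∀ z ∈ S, D u v a b z = 0) : ¬ Noncol u v S := by
  rintro ⟨p, hp, q, hq, r, hr, hne⟩
  apply hne
  have e : ∀ z ∈ S, v z = v a + (v b - v a) / (u b - u a) * (u z - u a) := by
    intro z hz
    have h1 := h z hz
    have h2 : u b - u a ≠ 0 := by linarith [sub_pos.2 hab]
    simp only [D] at h1
    field_simp
    linarith
  simp only [D]
  rw [e p hp, e q hq, e r hr]
  ring

theorem Noncol.neg {S : Finset Plane} (h : Noncol u v S) : Noncol u (-v) S := by
  obtain ⟨p, hp, q, hq, r, hr, hne⟩ := h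
  exact ⟨p, hp, q, hq, r, hr, by rw [D_neg]; exact neg_ne_zero.2 hne⟩

open Classical in
/-- The edges of `T` crossing the line `u = t`. -/
noncomputable def crossSet (u : Plane →ₗ[ℝ] ℝ) (t : ℝ) (T : Finset (Sym2 Plane)) :
    Finset (Sym2 Plane) := T.filter (Cr u t)

theorem mem_crossSet {t : ℝ} {T : Finset (Sym2 Plane)} {e : Sym2 Plane} :
    e ∈ crossSet u t T ↔ e ∈ T ∧ Cr u t e := by
  classical
  simp [crossSet]

/-- Lower and upper hull edges are different. -/
theorem hull_ne {S : Finset Plane} (hnc : Noncol u v S) {a b a' b' : Plane} {t : ℝ}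
    (h1 : u a < t) (h2 : t < u b) (h1' : u a' < t) (h2' : t < u b')
    (hD : ∀ z ∈ S, 0 ≤ D u v a b z) (hD' : ∀ z ∈ S, 0 ≤ D u (-v) a' b' z) :
    s(a, b) ≠ s(a', b') := by
  intro h
  rw [Sym2.eq_iff] at h
  rcases h with ⟨rfl, rfl⟩ | ⟨rfl, rfl⟩
  · apply not_noncol (h1.trans h2) _ hnc
    intro z hz
    have e1 := hD z hz
    have e2 := hD' z hz
    rw [D_neg] at e2
    linarith
  · linarith

theorem two_le_cross (hs : Sep u v) {S : Finset Plane} {T : Finset (Sym2 Plane)}
    (hT : IsTriangulation S T) (hnc : Noncol u v S) (t : ℝ) (hgen : ∀ z ∈ S, u z ≠ t)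
    (hA : ∃ a ∈ S, u a < t) (hB : ∃ b ∈ S, t < u b) : 2 ≤ (crossSet u t T).card := by
  obtain ⟨a, ha, b, hb, h1, h2, h3, h4, _⟩ := hull_edge hs hT t hgen hA hB
  obtain ⟨a', ha', b', hb', h1', h2', h3', h4', _⟩ := hull_edge hs.neg hT t hgen hA hB
  have hne := hull_ne hnc h1 h2 h1' h2' h4 h4'
  rw [← Nat.lt_iff_add_one_le, Finset.one_lt_card]
  exact ⟨_, mem_crossSet.2 ⟨h3, cr_mk h1 h2⟩, _, mem_crossSet.2 ⟨h3', cr_mk h1' h2'⟩, hne⟩

/-- The three-crossing lemma. -/
theorem three_le_cross (hs : Sep u v) {S : Finset Plane} {T : Finset (Sym2 Plane)}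
    (hT : IsTriangulation S T) (hnc : Noncol u v S) (t : ℝ) (hgen : ∀ z ∈ S, u z ≠ t)
    (hA : ∃ a1 ∈ S, ∃ a2 ∈ S, a1 ≠ a2 ∧ u a1 < t ∧ u a2 < t)
    (hB : ∃ b1 ∈ S, ∃ b2 ∈ S, b1 ≠ b2 ∧ t < u b1 ∧ t < u b2) : 3 ≤ (crossSet u t T).card := by
  classical
  obtain ⟨p1, hp1, p2, hp2, hpne, hp1t, hp2t⟩ := hA
  obtain ⟨q1, hq1, q2, hq2, hqne, hq1t, hq2t⟩ := hB
  have hA' : ∃ a ∈ S, u a < t := ⟨p1, hp1, hp1t⟩
  have hB' : ∃ b ∈ S, t < u b := ⟨q1, hq1, hq1t⟩
  obtain ⟨a, ha, b, hb, h1, h2, h3, h4, _⟩ := hull_edge hs hT t hgen hA' hB'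
  obtain ⟨a', ha', b', hb', h1', h2', h3', h4', _⟩ := hull_edge hs.neg hT t hgen hA' hB'
  have hne := hull_ne hnc h1 h2 h1' h2' h4 h4'
  by_contra hcon
  push Not at hcon
  have hsub : ({s(a, b), s(a', b')} : Finset (Sym2 Plane)) ⊆ crossSet u t T := by
    intro e he
    rw [Finset.mem_insert, Finset.mem_singleton] at he
    rcases he with rfl | rfl
    · exact mem_crossSet.2 ⟨h3, cr_mk h1 h2⟩
    · exact mem_crossSet.2 ⟨h3', cr_mk h1' h2'⟩
  have hcard : ({s(a, b), s(a', b')} : Finset (Sym2 Plane)).card = 2 := Finset.card_pair hne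
  have heq : ({s(a, b), s(a', b')} : Finset (Sym2 Plane)) = crossSet u t T :=
    Finset.eq_of_subset_of_card_le hsub (by rw [hcard]; omega)
  have hcr : ∀ f ∈ T, Cr u t f → f = s(a, b) ∨ f = s(a', b') := by
    intro f hf hfc
    have : f ∈ crossSet u t T := mem_crossSet.2 ⟨hf, hfc⟩
    rw [← heq, Finset.mem_insert, Finset.mem_singleton] at this
    exact this
  have hull : ∀ f ∈ T, Cr u t f → ∃ c d, f = s(c, d) ∧ u c < t ∧ t < u d ∧
      ((∀ z ∈ S, 0 ≤ D u v c d z) ∨ (∀ z ∈ S, 0 ≤ D u (-v) c d z)) := by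
    intro f hf hfc
    rcases hcr f hf hfc with rfl | rfl
    · exact ⟨a, b, rfl, h1, h2, Or.inl h4⟩
    · exact ⟨a', b', rfl, h1', h2', Or.inr h4'⟩
  have hull' : ∀ f ∈ T, Cr u t f → ∃ c d, f = s(c, d) ∧ u c < t ∧ t < u d ∧
      ((∀ z ∈ S, 0 ≤ D u (-v) c d z) ∨ (∀ z ∈ S, 0 ≤ D u (-(-v)) c d z)) := by
    intro f hf hfc
    obtain ⟨c, d, e1, e2, e3, e4⟩ := hull f hf hfc
    refine ⟨c, d, e1, e2, e3, ?_⟩
    rw [neg_neg]
    exact e4.symm
  obtain ⟨g, hg, k, hk, g1, g2, g3, g4, g5⟩ := inner_tangent hs hT t hgen hA' hB' hull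
  obtain ⟨g', hg', k', hk', g1', g2', g3', g4', g5'⟩ := inner_tangent hs.neg hT t hgen hA' hB' hull'
  -- endpoints identification
  have ident : ∀ {x y x' y' : Plane}, u x < t → t < u y → u x' < t → t < u y' →
      s(x, y) = s(x', y') → x = x' ∧ y = y' := by
    intro x y x' y' e1 e2 e3 e4 h
    rw [Sym2.eq_iff] at h
    rcases h with h | ⟨rfl, rfl⟩
    · exact h
    · linarith
  rcases hcr _ g3 (cr_mk g1 g2) with h5 | h5 <;> rcases hcr _ g3' (cr_mk g1' g2') with h5' | h5'
  · -- g1 = e, g2 = e : A and B on line(e)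
    obtain ⟨rfl, rfl⟩ := ident g1 g2 h1 h2 h5
    obtain ⟨rfl, rfl⟩ := ident g1' g2' h1 h2 h5'
    apply not_noncol (h1.trans h2) _ hnc
    intro z hz
    rcases lt_or_gt_of_ne (hgen z hz) with h | h
    · exact le_antisymm (g4 z hz h) (h4 z hz)
    · have := g5' z hz h
      rw [D_neg] at this
      exact le_antisymm (by linarith) (h4 z hz)
  · -- g1 = e, g2 = f : A on both lines
    obtain ⟨rfl, rfl⟩ := ident g1 g2 h1 h2 h5
    obtain ⟨rfl, rfl⟩ := ident g1' g2' h1' h2' h5'
    have hAe : ∀ z ∈ S, u z < t → D u v g k z = 0 := fun z hz h => le_antisymm (g4 z hz h) (h4 z hz)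
    have hAf : ∀ z ∈ S, u z < t → D u (-v) g' k' z = 0 :=
      fun z hz h => le_antisymm (g4' z hz h) (h4' z hz)
    exact two_points_contra hs hnc (g1.trans g2) (g1'.trans g2') h4 h4' hpne
      (hAe p1 hp1 hp1t) (hAe p2 hp2 hp2t) (hAf p1 hp1 hp1t) (hAf p2 hp2 hp2t)
  · obtain ⟨rfl, rfl⟩ := ident g1 g2 h1' h2' h5
    obtain ⟨rfl, rfl⟩ := ident g1' g2' h1 h2 h5'
    -- B on both lines
    have hBe : ∀ z ∈ S, t < u z → D u v g' k' z = 0 := by
      intro z hz h
      have := g5' z hz h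
      rw [D_neg] at this
      exact le_antisymm (by linarith) (h4 z hz)
    have hBf : ∀ z ∈ S, t < u z → D u (-v) g k z = 0 := by
      intro z hz h
      have := g5 z hz h
      have h6 := h4' z hz
      rw [D_neg] at h6 ⊢
      linarith
    exact two_points_contra hs hnc (g1'.trans g2') (g1.trans g2) h4 h4' hqne
      (hBe q1 hq1 hq1t) (hBe q2 hq2 hq2t) (hBf q1 hq1 hq1t) (hBf q2 hq2 hq2t)
  · obtain ⟨rfl, rfl⟩ := ident g1 g2 h1' h2' h5
    obtain ⟨rfl, rfl⟩ := ident g1' g2' h1' h2' h5'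
    apply not_noncol (h1'.trans h2') _ hnc.neg
    intro z hz
    rcases lt_or_gt_of_ne (hgen z hz) with h | h
    · exact le_antisymm (g4' z hz h) (h4' z hz)
    · have := g5 z hz h
      have h6 := h4' z hz
      rw [D_neg] at h6 ⊢
      linarith
where
  two_points_contra {u v : Plane →ₗ[ℝ] ℝ} (hs : Sep u v) {S : Finset Plane}
      (hnc : Noncol u v S) {a b a' b' x y : Plane}
      (hab : u a < u b) (hab' : u a' < u b') (h4 : ∀ z ∈ S, 0 ≤ D u v a b z)
      (h4' : ∀ z ∈ S, 0 ≤ D u (-v) a' b' z) (hxy : x ≠ y)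
      (hx : D u v a b x = 0) (hy : D u v a b y = 0)
      (hx' : D u (-v) a' b' x = 0) (hy' : D u (-v) a' b' y = 0) : False := by
    -- slopes agree
    have hu : u x ≠ u y := by
      intro h
      apply hxy
      apply hs x y h
      have h2 : u b - u a ≠ 0 := by linarith [sub_pos.2 hab]
      simp only [D] at hx hy
      rw [h] at hx
      have : (u b - u a) * (v x - v y) = 0 := by linarith
      rcases mul_eq_zero.1 this with h3 | h3
      · exact absurd h3 h2
      · linarith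
    have hux : u x - u y ≠ 0 := sub_ne_zero.2 hu
    rw [D_neg] at hx' hy'
    apply not_noncol hab _ hnc
    intro z hz
    have e1 := h4 z hz
    have e2 := h4' z hz
    rw [D_neg] at e2
    simp only [D] at *
    -- (v b - v a) (u x - u y) = (u b - u a) (v x - v y)
    have f1 : (v b - v a) * (u x - u y) = (u b - u a) * (v x - v y) := by linarith
    have f2 : (v b' - v a') * (u x - u y) = (u b' - u a') * (v x - v y) := by linarith
    have p1 : 0 < u b - u a := by linarith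
    have p2 : 0 < u b' - u a' := by linarith
    -- write everything relative to x
    have g1 : (u b - u a) * (v z - v a) - (v b - v a) * (u z - u a)
        = (u b - u a) * (v z - v x) - (v b - v a) * (u z - u x) := by linarith
    have g2 : (u b' - u a') * (v z - v a') - (v b' - v a') * (u z - u a')
        = (u b' - u a') * (v z - v x) - (v b' - v a') * (u z - u x) := by linarith
    rw [g1] at e1 ⊢
    rw [g2] at e2
    set m := (v x - v y) / (u x - u y) with hm
    have hm1 : v b - v a = (u b - u a) * m := by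
      rw [hm]; field_simp; linarith
    have hm2 : v b' - v a' = (u b' - u a') * m := by
      rw [hm]; field_simp; linarith
    rw [hm1] at e1 ⊢
    rw [hm2] at e2
    have k1 : 0 ≤ (u b - u a) * ((v z - v x) - m * (u z - u x)) := by linarith
    have k2 : (u b' - u a') * ((v z - v x) - m * (u z - u x)) ≤ 0 := by linarith
    have k3 : 0 ≤ (v z - v x) - m * (u z - u x) := nonneg_of_mul_nonneg_right k1 p1
    have k4 : (v z - v x) - m * (u z - u x) ≤ 0 := by
      by_contra hc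
      push Not at hc
      have := mul_pos p2 hc
      linarith
    have k5 : (v z - v x) - m * (u z - u x) = 0 := le_antisymm k4 k3
    have : (u b - u a) * (v z - v x) - (u b - u a) * m * (u z - u x)
      = (u b - u a) * ((v z - v x) - m * (u z - u x)) := by ring
    rw [this, k5, mul_zero]

end Pool.Agent.H695R2.Steiner
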