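import Mathlib
import Pool.Agent.H695R2.Steiner.Cross

set_option autoImplicit false

namespace Pool.Agent.H695R2.Steiner

open Set

variable {u v : Plane →ₗ[ℝ] ℝ}

theorem cross_point {t : ℝ} {a b : Plane} (h1 : u a < t) (h2 : t < u b) :
    ∃ z ∈ seg s(a, b), u z = t ∧ v z = pos u v t a b := by
  have e : u b - u a ≠ 0 := by linarith
  refine ⟨(1 - (t - u a) / (u b - u a)) • a + ((t - u a) / (u b - u a)) • b, ?_, ?_, ?_⟩
  · rw [seg_mk, mem_segment_iff]
    refine ⟨(t - u a) / (u b - u a), ?_, ?_, rfl⟩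
    · exact div_nonneg (by linarith) (by linarith)
    · rw [div_le_one (by linarith)]; linarith
  · simp only [map_add, map_smul, smul_eq_mul]
    field_simp
    ring
  · simp only [map_add, map_smul, smul_eq_mul, pos]
    field_simp
    ring

theorem cr_point {t : ℝ} {e : Sym2 Plane} (h : Cr u t e) : ∃ z ∈ seg e, u z = t := by
  induction e using Sym2.ind with
  | _ a b =>
    rcases cr_iff.1 h with ⟨h1, h2⟩ | ⟨h1, h2⟩
    · obtain ⟨z, hz, hz', _⟩ := cross_point (v := u) h1 h2
      exact ⟨z, hz, hz'⟩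
    · obtain ⟨z, hz, hz', _⟩ := cross_point (v := u) h1 h2
      rw [Sym2.eq_swap] at hz
      exact ⟨z, hz, hz'⟩

/-- An edge is a hull edge. -/
def HullEdge (u v : Plane →ₗ[ℝ] ℝ) (S : Finset Plane) (q d : Plane) : Prop :=
  (∀ z ∈ S, 0 ≤ D u v q d z) ∨ (∀ z ∈ S, 0 ≤ D u (-v) q d z)

theorem hull_nc (hs : Sep u v) {S : Finset Plane} {T : Finset (Sym2 Plane)}
    (hT : IsPlanar S T) {q d a b z : Plane} (hq : q ∈ S) (hd : d ∈ S) (hqd : u q ≠ u d)
    (hf : s(q, d) ∈ T)
    (hh : HullEdge u v S q d) (ha : a ∈ S) (hb : b ∈ S) (hab : a ≠ b)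
    (hfree : ∀ p ∈ S, p ∈ segment ℝ a b → p = a ∨ p = b)
    (hz : z ∈ seg s(q, d)) (hz' : z ∈ segment ℝ a b) (hne : s(q, d) ≠ s(a, b)) :
    (z = a ∨ z = b) ∧ z ∈ s(q, d) := by
  rcases hh with hh | hh
  · rcases nc_lemma hs hq hd ha hb hqd hab (free_of_mem hT hf) hfree (hh a ha) (hh b hb) hz hz'
      with h | h
    · exact ⟨h.2, Sym2.mem_iff.2 h.1⟩
    · exact absurd h hne
  · rcases nc_lemma hs.neg hq hd ha hb hqd hab (free_of_mem hT hf) hfree (hh a ha) (hh b hb) hz hz'
      with h | h
    · exact ⟨h.2, Sym2.mem_iff.2 h.1⟩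
    · exact absurd h hne

open Classical in
/-- Removing an extreme point all of whose edges are hull edges leaves a triangulation. -/
theorem tri_erase (hs : Sep u v) {S : Finset Plane} {T : Finset (Sym2 Plane)}
    (hT : IsTriangulation S T) {d : Plane} (hd : d ∈ S)
    (hext : ∀ z ∈ S, z ≠ d → u z < u d)
    (hdeg : ∀ e ∈ T, d ∈ e → ∃ q, e = s(q, d) ∧ HullEdge u v S q d) :
    IsTriangulation (S.erase d) (T.filter (fun e => d ∉ e)) := by
  refine ⟨⟨?_, ?_, ?_, ?_⟩, ?_⟩
  · intro e he
    exact hT.1.nondeg e (Finset.mem_filter.1 he).1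
  · intro e he p hp
    rw [Finset.mem_erase]
    refine ⟨?_, hT.1.ends e (Finset.mem_filter.1 he).1 p hp⟩
    rintro rfl
    exact (Finset.mem_filter.1 he).2 hp
  · intro e he p hp hpe
    exact hT.1.empty e (Finset.mem_filter.1 he).1 p (Finset.mem_of_mem_erase hp) hpe
  · intro e he f hf hef p hpe hpf
    exact hT.1.meet e (Finset.mem_filter.1 he).1 f (Finset.mem_filter.1 hf).1 hef p hpe hpf
  · intro T2 hP hsub
    refine Finset.Subset.antisymm ?_ hsub
    intro e he
    induction e using Sym2.ind with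
    | _ a b =>
      have ha' := hP.ends _ he a (Sym2.mem_mk_left a b)
      have hb' := hP.ends _ he b (Sym2.mem_mk_right a b)
      have ha : a ∈ S := Finset.mem_of_mem_erase ha'
      have hb : b ∈ S := Finset.mem_of_mem_erase hb'
      have had : a ≠ d := (Finset.mem_erase.1 ha').1
      have hbd : b ≠ d := (Finset.mem_erase.1 hb').1
      have hab : a ≠ b := ne_of_mem hP he
      have hfree : ∀ p ∈ S, p ∈ segment ℝ a b → p = a ∨ p = b := by
        intro p hp hps
        by_cases hpd : p = d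
        · exfalso
          subst hpd
          obtain ⟨t, h0, h1, h2⟩ := (mem_segment_iff a b p).1 hps
          have e1 := hext a ha had
          have e2 := hext b hb hbd
          have e3 : u p = (1 - t) * u a + t * u b := by
            conv_lhs => rw [h2]
            simp only [map_add, map_smul, smul_eq_mul]
          rcases eq_or_lt_of_le h0 with h | h
          · rw [← h] at e3; linarith
          · nlinarith
        · exact Sym2.mem_iff.1 (hP.empty _ he p (Finset.mem_erase.2 ⟨hpd, hp⟩) hps)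
      have hmem : s(a, b) ∈ T := by
        apply mem_of_free hT ha hb hab hfree
        intro f hf hne z hzf hz
        by_cases hdf : d ∈ f
        · obtain ⟨q, rfl, hh⟩ := hdeg f hf hdf
          have hq : q ∈ S := hT.1.ends _ hf q (Sym2.mem_mk_left q d)
          have hqd : u q ≠ u d := (hext q hq (ne_of_mem hT.1 hf)).ne
          exact hull_nc hs hT.1 hq hd hqd hf hh ha hb hab hfree hzf hz hne
        · have hf2 : f ∈ T2 := hsub (Finset.mem_filter.2 ⟨hf, hdf⟩)
          have := hP.meet f hf2 _ he hne z hzf hz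
          exact ⟨Sym2.mem_iff.1 this.2, this.1⟩
      rw [Finset.mem_filter]
      refine ⟨hmem, ?_⟩
      intro hd'
      rcases Sym2.mem_iff.1 hd' with h | h
      · exact had h.symm
      · exact hbd h.symm

end Pool.Agent.H695R2.Steiner
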