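import Mathlib
import Pool.Agent.H695R2.Steiner.Erase
import Pool.Agent.H695R2.Steiner.Crofton

set_option autoImplicit false

namespace Pool.Agent.H695R2.Steiner

open Set

noncomputable def pO : Plane := !₂[0, 0]
noncomputable def pB : Plane := !₂[1, 0]
noncomputable def pC : Plane := !₂[3, 0]
noncomputable def pD : Plane := !₂[0, 1000]

@[simp] theorem cx_pO : cx pO = 0 := rfl
@[simp] theorem cy_pO : cy pO = 0 := rfl
@[simp] theorem cx_pB : cx pB = 1 := rfl
@[simp] theorem cy_pB : cy pB = 0 := rfl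
@[simp] theorem cx_pC : cx pC = 3 := rfl
@[simp] theorem cy_pC : cy pC = 0 := rfl
@[simp] theorem cx_pD : cx pD = 0 := rfl
@[simp] theorem cy_pD : cy pD = 1000 := rfl

/-- The value of the infimum. -/
noncomputable def KK : ℝ := 1007 + Real.sqrt 1000009

theorem sqrt_lt : Real.sqrt 1000009 < 1000.005 := by
  rw [Real.sqrt_lt' (by norm_num)]; norm_num

theorem pO_ne_pB : pO ≠ pB := by
  intro h; have := congrArg cx h; simp at this
theorem pO_ne_pC : pO ≠ pC := by
  intro h; have := congrArg cx h; simp at this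
theorem pB_ne_pC : pB ≠ pC := by
  intro h; have := congrArg cx h; norm_num at this
theorem pO_ne_pD : pO ≠ pD := by
  intro h; have := congrArg cy h; norm_num at this
theorem pB_ne_pD : pB ≠ pD := by
  intro h; have := congrArg cx h; norm_num at this
theorem pC_ne_pD : pC ≠ pD := by
  intro h; have := congrArg cx h; norm_num at this

theorem convex_lt (f : Plane →ₗ[ℝ] ℝ) (r : ℝ) : Convex ℝ {z | f z < r} :=
  convex_halfSpace_lt f.isLinear r
theorem convex_gt (f : Plane →ₗ[ℝ] ℝ) (r : ℝ) : Convex ℝ {z | r < f z} :=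
  convex_halfSpace_gt f.isLinear r
theorem convex_le (f : Plane →ₗ[ℝ] ℝ) (r : ℝ) : Convex ℝ {z | f z ≤ r} :=
  convex_halfSpace_le f.isLinear r
theorem convex_ge (f : Plane →ₗ[ℝ] ℝ) (r : ℝ) : Convex ℝ {z | r ≤ f z} :=
  convex_halfSpace_ge f.isLinear r

/-- Bad values: the coordinates of the points of `S`. -/
def bad (S : Finset Plane) : Set ℝ := (cx '' (S : Set Plane)) ∪ (cy '' (S : Set Plane))

theorem bad_finite (S : Finset Plane) : (bad S).Finite :=
  (S.finite_toSet.image _).union (S.finite_toSet.image _)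

theorem gen_x {S : Finset Plane} {t : ℝ} (h : t ∉ bad S) : ∀ z ∈ S, cx z ≠ t := by
  intro z hz e
  exact h (Or.inl ⟨z, hz, e⟩)

theorem gen_y {S : Finset Plane} {t : ℝ} (h : t ∉ bad S) : ∀ z ∈ S, cy z ≠ t := by
  intro z hz e
  exact h (Or.inr ⟨z, hz, e⟩)

open Classical in
theorem cross_le_filter {u : Plane →ₗ[ℝ] ℝ} {t : ℝ} {T : Finset (Sym2 Plane)} {R : Set Plane}
    (h : ∀ z : Plane, u z = t → z ∈ R) :
    (crossSet u t T).card ≤ (T.filter (fun e => t ∈ img u R e)).card := by
  apply Finset.card_le_card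
  intro e he
  obtain ⟨h1, h2⟩ := mem_crossSet.1 he
  rw [Finset.mem_filter]
  refine ⟨h1, ?_⟩
  obtain ⟨z, hz, hz'⟩ := cr_point h2
  exact ⟨z, hz, h z hz', hz'⟩

theorem noncol_S {S : Finset Plane} (hO : pO ∈ S) (hB : pB ∈ S) (hD : pD ∈ S) :
    Noncol cy cx S := by
  refine ⟨pO, hO, pB, hB, pD, hD, ?_⟩
  simp only [D, cx_pO, cy_pO, cx_pB, cy_pB, cx_pD, cy_pD]
  norm_num

/-- Step A: a generic low horizontal line crossing at most two edges exists, or the weight is
large. -/
theorem stepA {S : Finset Plane} {T : Finset (Sym2 Plane)} (hT : IsTriangulation S T)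
    (hO : pO ∈ S) (hB : pB ∈ S) (hD : pD ∈ S) (hw : weight T ≤ KK) :
    ∃ s, 0 < s ∧ s < 8 ∧ s ∉ bad S ∧ (crossSet cy s T).card < 3 := by
  classical
  by_contra hcon
  push Not at hcon
  have := main_ineq T (fun i : Bool => if i then {z | cy z < 8} else {z | 8 < cy z})
    (by
      intro i
      cases i
      · simpa using convex_gt cy 8
      · simpa using convex_lt cy 8)
    (by
      intro i j hij
      cases i <;> cases j
      · exact absurd rfl hij
      · simp only [Function.onFun, Set.disjoint_left]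
        intro z hz hz'
        simp at hz hz'
        linarith
      · simp only [Function.onFun, Set.disjoint_left]
        intro z hz hz'
        simp at hz hz'
        linarith
      · exact absurd rfl hij)
    (fun _ => cy) (fun _ => abs_cy_sub_le)
    (fun i => if i then 0 else 8) (fun i => if i then 8 else 1000)
    (fun i => if i then 3 else 2) (bad S) (bad_finite S)
    (by
      intro i t h1 h2 h3
      cases i
      · simp only [Bool.false_eq_true, if_false] at h1 h2 ⊢
        refine le_trans ?_ (cross_le_filter (u := cy) (t := t) ?_)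
        · exact two_le_cross sep_yx hT (noncol_S hO hB hD) t (gen_y h3)
            ⟨pO, hO, by simp; linarith⟩ ⟨pD, hD, by simp; linarith⟩
        · intro z hz
          simp only [Set.mem_ofPred_eq]
          linarith
      · simp only [if_true] at h1 h2 ⊢
        refine le_trans (hcon t h1 h2 h3) (cross_le_filter (u := cy) (t := t) ?_)
        intro z hz
        simp only [Set.mem_ofPred_eq]
        linarith)
  simp only [Fintype.sum_bool, if_true, Bool.false_eq_true, if_false] at this
  have h8 : (max 0 ((8:ℝ) - 0)) = 8 := by norm_num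
  have h9 : (max 0 ((1000:ℝ) - 8)) = 992 := by norm_num
  rw [h8, h9] at this
  unfold weight at hw
  unfold KK at hw
  have := sqrt_lt
  norm_num at *
  linarith

/-- Structure at the top vertex. -/
theorem stepB {S : Finset Plane} {T : Finset (Sym2 Plane)} (hT : IsTriangulation S T)
    (hO : pO ∈ S) (hB : pB ∈ S) (hD : pD ∈ S) (hw : weight T ≤ KK) :
    ∃ p ∈ S, ∃ r ∈ S, p ≠ r ∧ s(p, pD) ∈ T ∧ s(r, pD) ∈ T ∧
      (∀ z ∈ S, 0 ≤ D cy cx p pD z) ∧ (∀ z ∈ S, 0 ≤ D cy (-cx) r pD z) ∧
      (∀ q, s(q, pD) ∈ T → q = p ∨ q = r) ∧ (∀ z ∈ S, z ≠ pD → cy z < 8) := by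
  classical
  obtain ⟨s, hs0, hs8, hsb, hcard⟩ := stepA hT hO hB hD hw
  have hgen := gen_y hsb
  have habove : ∀ z ∈ S, s < cy z → z = pD := by
    intro z hz hsz
    by_contra hne
    have := three_le_cross sep_yx hT (noncol_S hO hB hD) s hgen
      ⟨pO, hO, pB, hB, pO_ne_pB, by simpa using hs0, by simpa using hs0⟩
      ⟨z, hz, pD, hD, hne, hsz, by simp; linarith⟩
    omega
  have hbelow : ∀ z ∈ S, z ≠ pD → cy z < s := by
    intro z hz hne
    rcases lt_or_gt_of_ne (hgen z hz) with h | h
    · exact h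
    · exact absurd (habove z hz h) hne
  have hA' : ∃ a ∈ S, cy a < s := ⟨pO, hO, by simpa using hs0⟩
  have hB' : ∃ b ∈ S, s < cy b := ⟨pD, hD, by simp; linarith⟩
  obtain ⟨p, hp, d1, hd1, h1, h2, h3, h4, _⟩ := hull_edge sep_yx hT s hgen hA' hB'
  obtain ⟨r, hr, d2, hd2, h1', h2', h3', h4', _⟩ := hull_edge sep_yx.neg hT s hgen hA' hB'
  have e1 := habove d1 hd1 h2
  have e2 := habove d2 hd2 h2'
  subst e1
  subst e2
  have hne := hull_ne (noncol_S hO hB hD) h1 h2 h1' h2' h4 h4'
  have hpr : p ≠ r := by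
    rintro rfl
    exact hne rfl
  refine ⟨p, hp, r, hr, hpr, h3, h3', h4, h4', ?_, ?_⟩
  · intro q hq
    have hqS : q ∈ S := hT.1.ends _ hq q (Sym2.mem_mk_left _ _)
    have hqd : q ≠ pD := ne_of_mem hT.1 hq
    have hqs := hbelow q hqS hqd
    have hsub : ({s(p, pD), s(r, pD)} : Finset (Sym2 Plane)) ⊆ crossSet cy s T := by
      intro e he
      rw [Finset.mem_insert, Finset.mem_singleton] at he
      rcases he with rfl | rfl
      · exact mem_crossSet.2 ⟨h3, cr_mk h1 h2⟩
      · exact mem_crossSet.2 ⟨h3', cr_mk h1' h2'⟩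
    have heq : ({s(p, pD), s(r, pD)} : Finset (Sym2 Plane)) = crossSet cy s T :=
      Finset.eq_of_subset_of_card_le hsub (by rw [Finset.card_pair hne]; omega)
    have : s(q, pD) ∈ crossSet cy s T := mem_crossSet.2 ⟨hq, cr_mk hqs h2⟩
    rw [← heq, Finset.mem_insert, Finset.mem_singleton] at this
    rcases this with h | h
    · left
      rw [Sym2.eq_iff] at h
      rcases h with h | h
      · exact h.1
      · exact absurd h.1 hqd
    · right
      rw [Sym2.eq_iff] at h
      rcases h with h | h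
      · exact h.1
      · exact absurd h.1 hqd
  · intro z hz hne'
    exact (hbelow z hz hne').trans hs8

end Pool.Agent.H695R2.Steiner
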