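import Mathlib
import Pool.Agent.H695R2.Steiner.Lower

set_option autoImplicit false

namespace Pool.Agent.H695R2.Steiner

open Set

/-- Data at the top vertex. -/
structure Top (S : Finset Plane) (T : Finset (Sym2 Plane)) (p r : Plane) : Prop where
  tri : IsTriangulation S T
  hO : pO ∈ S
  hB : pB ∈ S
  hC : pC ∈ S
  hD : pD ∈ S
  hp : p ∈ S
  hr : r ∈ S
  hpr : p ≠ r
  hpT : s(p, pD) ∈ T
  hrT : s(r, pD) ∈ T
  left : ∀ z ∈ S, 0 ≤ D cy cx p pD z
  right : ∀ z ∈ S, 0 ≤ D cy (-cx) r pD z
  deg : ∀ q, s(q, pD) ∈ T → q = p ∨ q = r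
  low : ∀ z ∈ S, z ≠ pD → cy z < 8

variable {S : Finset Plane} {T : Finset (Sym2 Plane)} {p r : Plane}

theorem Top.p_ne (h : Top S T p r) : p ≠ pD := ne_of_mem h.tri.1 h.hpT
theorem Top.r_ne (h : Top S T p r) : r ≠ pD := ne_of_mem h.tri.1 h.hrT

theorem Top.cxp (h : Top S T p r) : cx p ≤ 0 := by
  have := h.left pO h.hO
  simp only [D, cx_pO, cy_pO, cx_pD, cy_pD] at this
  nlinarith

theorem Top.cxr (h : Top S T p r) : 3 * (1000 - cy r) ≤ 1000 * cx r := by
  have := h.right pC h.hC
  simp only [D, LinearMap.neg_apply, cx_pC, cy_pC, cx_pD, cy_pD] at this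
  nlinarith

theorem Top.cyp (h : Top S T p r) : cy p < 8 := h.low p h.hp h.p_ne
theorem Top.cyr (h : Top S T p r) : cy r < 8 := h.low r h.hr h.r_ne

theorem Top.cxr' (h : Top S T p r) : 2.976 < cx r := by
  have := h.cxr
  have := h.cyr
  norm_num
  linarith

open Classical in
/-- The triangulation below the top vertex. -/
noncomputable def T1 (T : Finset (Sym2 Plane)) : Finset (Sym2 Plane) := T.filter (fun e => pD ∉ e)

theorem mem_T1 {e : Sym2 Plane} : e ∈ T1 T ↔ e ∈ T ∧ pD ∉ e := by
  classical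
  simp [T1]

theorem Top.hull (h : Top S T p r) : ∀ e ∈ T, pD ∈ e →
    ∃ q, e = s(q, pD) ∧ HullEdge cy cx S q pD := by
  intro e he hd
  obtain ⟨q, rfl⟩ := Sym2.mem_iff_exists.1 hd
  rw [Sym2.eq_swap] at he
  rcases h.deg q he with rfl | rfl
  · exact ⟨q, Sym2.eq_swap, Or.inl h.left⟩
  · exact ⟨q, Sym2.eq_swap, Or.inr h.right⟩

theorem Top.tri1 (h : Top S T p r) : IsTriangulation (S.erase pD) (T1 T) := by
  classical
  have := tri_erase sep_yx h.tri h.hD (by
    intro z hz hne
    have := h.low z hz hne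
    simp
    linarith) h.hull
  convert this using 1
  ext e
  rw [mem_T1, Finset.mem_filter]

theorem Top.weight_eq (h : Top S T p r) :
    weight T = dist p pD + dist r pD + weight (T1 T) := by
  classical
  unfold weight
  have h1 : T = insert s(p, pD) (insert s(r, pD) (T1 T)) := by
    ext e
    rw [Finset.mem_insert, Finset.mem_insert, mem_T1]
    constructor
    · intro he
      by_cases hd : pD ∈ e
      · obtain ⟨q, rfl⟩ := Sym2.mem_iff_exists.1 hd
        rw [Sym2.eq_swap] at he
        rcases h.deg q he with rfl | rfl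
        · left; exact Sym2.eq_swap
        · right; left; exact Sym2.eq_swap
      · exact Or.inr (Or.inr ⟨he, hd⟩)
    · rintro (rfl | rfl | ⟨he, _⟩)
      · exact h.hpT
      · exact h.hrT
      · exact he
  have h2 : s(r, pD) ∉ T1 T := by
    rw [mem_T1]
    intro hh
    exact hh.2 (Sym2.mem_mk_right _ _)
  have h3 : s(p, pD) ∉ insert s(r, pD) (T1 T) := by
    rw [Finset.mem_insert, mem_T1]
    rintro (hh | hh)
    · rw [Sym2.eq_iff] at hh
      rcases hh with hh | hh
      · exact h.hpr hh.1
      · exact h.p_ne hh.1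
    · exact hh.2 (Sym2.mem_mk_right _ _)
  conv_lhs => rw [h1]
  rw [Finset.sum_insert h3, Finset.sum_insert h2, len_mk, len_mk]
  ring

theorem Top.mem1 (_h : Top S T p r) {z : Plane} (hz : z ∈ S) (hne : z ≠ pD) : z ∈ S.erase pD :=
  Finset.mem_erase.2 ⟨hne, hz⟩

/-- The points below the top are not collinear. -/
theorem Top.noncol (h : Top S T p r) : Noncol cx cy (S.erase pD) := by
  by_contra hcon
  have hO' := h.mem1 h.hO pO_ne_pD
  have hB' := h.mem1 h.hB pB_ne_pD
  have hz0 : ∀ z ∈ S.erase pD, cy z = 0 := by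
    intro z hz
    by_contra hne
    apply hcon
    refine ⟨pO, hO', pB, hB', z, hz, ?_⟩
    simp only [D, cx_pO, cy_pO, cx_pB, cy_pB]
    norm_num
    exact hne
  have hfree : ∀ q ∈ S, q ∈ segment ℝ pB pD → q = pB ∨ q = pD := by
    intro q hq hqs
    by_cases hqd : q = pD
    · exact Or.inr hqd
    · left
      obtain ⟨t, h0, h1, h2⟩ := (mem_segment_iff _ _ _).1 hqs
      have e1 : cy q = t * 1000 := by
        rw [h2]; simp only [map_add, map_smul, smul_eq_mul, cy_pB, cy_pD]; ring
      rw [hz0 q (h.mem1 hq hqd)] at e1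
      have : t = 0 := by linarith
      rw [h2, this]; simp
  have hmem : s(pB, pD) ∈ T := by
    apply mem_of_free h.tri h.hB h.hD pB_ne_pD hfree
    intro f hf hne z hzf hz
    by_cases hd : pD ∈ f
    · obtain ⟨q, rfl, hh⟩ := h.hull f hf hd
      have hq : q ∈ S := h.tri.1.ends _ hf q (Sym2.mem_mk_left _ _)
      have hqd : q ≠ pD := ne_of_mem h.tri.1 hf
      have hne' : cy q ≠ cy pD := by
        have := h.low q hq hqd
        simp
        linarith
      exact hull_nc sep_yx h.tri.1 hq h.hD hne' hf hh h.hB h.hD pB_ne_pD hfree hzf hz hne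
    · have hz0' : cy z = 0 := by
        induction f using Sym2.ind with
        | _ a b =>
          have ha := h.tri.1.ends _ hf a (Sym2.mem_mk_left _ _)
          have hb := h.tri.1.ends _ hf b (Sym2.mem_mk_right _ _)
          have ha' : a ≠ pD := fun e => hd (e ▸ Sym2.mem_mk_left _ _)
          have hb' : b ≠ pD := fun e => hd (e ▸ Sym2.mem_mk_right _ _)
          obtain ⟨t, h0, h1, h2⟩ := (mem_segment_iff _ _ _).1 hzf
          rw [h2]
          simp only [map_add, map_smul, smul_eq_mul, hz0 a (h.mem1 ha ha'), hz0 b (h.mem1 hb hb')]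
          ring
      obtain ⟨t, h0, h1, h2⟩ := (mem_segment_iff _ _ _).1 hz
      have e1 : cy z = t * 1000 := by
        rw [h2]; simp only [map_add, map_smul, smul_eq_mul, cy_pB, cy_pD]; ring
      have ht : t = 0 := by linarith
      have hzB : z = pB := by rw [h2, ht]; simp
      refine ⟨Or.inl hzB, ?_⟩
      rw [hzB] at hzf ⊢
      exact h.tri.1.empty f hf pB h.hB hzf
  rcases h.deg pB hmem with e | e
  · have := h.cxp
    rw [← e] at this
    norm_num at this
  · have := h.cxr'
    rw [← e] at this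
    norm_num at this

theorem Top.noncol' (h : Top S T p r) : Noncol cy cx (S.erase pD) := by
  obtain ⟨a, ha, b, hb, c, hc, hne⟩ := h.noncol
  refine ⟨a, ha, b, hb, c, hc, ?_⟩
  intro e
  apply hne
  simp only [D] at e ⊢
  linarith

theorem dist_ge_y (a b : Plane) : cy b - cy a ≤ dist a b := by
  have := abs_cy_sub_le a b
  rw [abs_le] at this
  linarith [this.1]

/-- Case `r ≠ c`. -/
theorem Top.case_b (h : Top S T p r) (hrc : r ≠ pC) : KK < weight T := by
  classical
  set m := min (cx r) 3 with hm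
  have hm1 : 2.976 < m := by
    rw [hm, lt_min_iff]
    exact ⟨h.cxr', by norm_num⟩
  have hmr : m ≤ cx r := min_le_left _ _
  have hm3 : m ≤ 3 := min_le_right _ _
  have hbadsub : ∀ t, t ∉ bad S → t ∉ bad (S.erase pD) := by
    intro t ht ht'
    apply ht
    rcases ht' with ⟨z, hz, e⟩ | ⟨z, hz, e⟩
    · exact Or.inl ⟨z, Finset.mem_of_mem_erase hz, e⟩
    · exact Or.inr ⟨z, Finset.mem_of_mem_erase hz, e⟩
  have hO' := h.mem1 h.hO pO_ne_pD
  have hB' := h.mem1 h.hB pB_ne_pD
  have hC' := h.mem1 h.hC pC_ne_pD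
  have hp' := h.mem1 h.hp h.p_ne
  have hr' := h.mem1 h.hr h.r_ne
  have key := main_ineq (T1 T)
    (![{z | 0 < cx z} ∩ {z | cx z < 1}, {z | 1 < cx z} ∩ {z | cx z < m}, {z | cx z ≤ 0},
      {z | m ≤ cx z}] : Fin 4 → Set Plane)
    (by
      intro i
      fin_cases i
      · exact (convex_gt cx 0).inter (convex_lt cx 1)
      · exact (convex_gt cx 1).inter (convex_lt cx m)
      · exact convex_le cx 0
      · exact convex_ge cx m)
    (by
      intro i j hij
      simp only [Function.onFun, Set.disjoint_left]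
      intro z hz hz'
      fin_cases i <;> fin_cases j <;> simp at hij hz hz' <;>
        first
        | exact absurd rfl hij
        | (norm_num at hm1; linarith))
    (![cx, cx, cy, cy] : Fin 4 → (Plane →ₗ[ℝ] ℝ))
    (by
      intro i
      fin_cases i
      · exact abs_cx_sub_le
      · exact abs_cx_sub_le
      · exact abs_cy_sub_le
      · exact abs_cy_sub_le)
    (![0, 1, 0, 0] : Fin 4 → ℝ) (![1, m, cy p, cy r] : Fin 4 → ℝ)
    (![2, 3, 1, 1] : Fin 4 → ℕ) (bad S) (bad_finite S)
    (by
      intro i t h1 h2 h3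
      have h3' := hbadsub t h3
      fin_cases i
      · simp at h1 h2 ⊢
        refine le_trans ?_ (cross_le_filter (u := cx) (t := t) ?_)
        · exact two_le_cross sep_xy h.tri1 h.noncol t (gen_x h3') ⟨pO, hO', by simpa using h1⟩
            ⟨pB, hB', by simpa using h2⟩
        · intro z hz
          exact ⟨by simpa [hz] using h1, by simpa [hz] using h2⟩
      · simp at h1 h2 ⊢
        refine le_trans ?_ (cross_le_filter (u := cx) (t := t) ?_)
        · exact three_le_cross sep_xy h.tri1 h.noncol t (gen_x h3')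
            ⟨pO, hO', pB, hB', pO_ne_pB, by simp; linarith, by simpa using h1⟩
            ⟨pC, hC', r, hr', hrc.symm, by simp; linarith, by linarith⟩
        · intro z hz
          exact ⟨by simpa [hz] using h1, by simpa [hz] using h2⟩
      · simp at h1 h2 ⊢
        obtain ⟨a, ha, b, hb, k1, k2, k3, k4, k5⟩ := hull_edge sep_yx h.tri1 t (gen_y h3')
          ⟨pO, hO', by simpa using h1⟩ ⟨p, hp', h2⟩
        obtain ⟨z, hz, hzt, hzp⟩ := cross_point (v := cx) k1 k2
        refine ⟨_, Finset.mem_filter.2 ⟨k3, z, hz, ?_, hzt⟩⟩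
        have k6 := k5 pO hO' p hp' (by simpa using h1) h2
        rw [← hzp] at k6
        simp only [pos, cx_pO, cy_pO] at k6
        have k7 : (0 * (cy p - t) + cx p * (t - 0)) / (cy p - 0) ≤ 0 := by
          apply div_nonpos_of_nonpos_of_nonneg
          · have := h.cxp
            nlinarith
          · linarith
        exact k6.trans k7
      · simp at h1 h2 ⊢
        obtain ⟨a, ha, b, hb, k1, k2, k3, k4, k5⟩ := hull_edge sep_yx.neg h.tri1 t (gen_y h3')
          ⟨pC, hC', by simpa using h1⟩ ⟨r, hr', h2⟩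
        obtain ⟨z, hz, hzt, hzp⟩ := cross_point (v := -cx) k1 k2
        refine ⟨_, Finset.mem_filter.2 ⟨k3, z, hz, ?_, hzt⟩⟩
        have k6 := k5 pC hC' r hr' (by simpa using h1) h2
        rw [← hzp] at k6
        simp only [pos, cx_pC, cy_pC, LinearMap.neg_apply] at k6
        have k7 : (-3 * (cy r - t) + -cx r * (t - 0)) / (cy r - 0) ≤ -m := by
          rw [div_le_iff₀ (by linarith)]
          have e1 : 0 ≤ (3 - m) * (cy r - t) := mul_nonneg (by linarith) (by linarith)
          have e2 : 0 ≤ (cx r - m) * t := mul_nonneg (by linarith) (by linarith)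
          linarith
        show m ≤ cx z
        linarith)
  simp only [Fin.sum_univ_four] at key
  simp at key
  have e1 : (max 0 (m - 1)) = m - 1 := max_eq_right (by norm_num at hm1; linarith)
  rw [e1] at key
  have w := h.weight_eq
  have w1 : ∑ e ∈ T1 T, len e = weight (T1 T) := rfl
  rw [w1] at key
  have d1 := dist_ge_y p pD
  have d2 := dist_ge_y r pD
  rw [cy_pD] at d1 d2
  have m1 : cy p ≤ max 0 (cy p) := le_max_right _ _
  have m2 : cy r ≤ max 0 (cy r) := le_max_right _ _
  have hs := sqrt_lt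
  unfold KK
  norm_num at hm1 hs
  linarith

end Pool.Agent.H695R2.Steiner
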