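import Mathlib
import Pool.Agent.H695R2.Steiner.Lower2

set_option autoImplicit false

namespace Pool.Agent.H695R2.Steiner

open Set

variable {S : Finset Plane} {T : Finset (Sym2 Plane)} {p r : Plane}

theorem Top.bad_erase (_h : Top S T p r) : ∀ t, t ∉ bad S → t ∉ bad (S.erase pD) := by
  intro t ht ht'
  apply ht
  rcases ht' with ⟨z, hz, e⟩ | ⟨z, hz, e⟩
  · exact Or.inl ⟨z, Finset.mem_of_mem_erase hz, e⟩
  · exact Or.inr ⟨z, Finset.mem_of_mem_erase hz, e⟩

/-- In the case `r = c`, the segment `pc` is an edge. -/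
theorem Top.edge_pc (h : Top S T p pC) : s(p, pC) ∈ T1 T := by
  classical
  have hO' := h.mem1 h.hO pO_ne_pD
  have hB' := h.mem1 h.hB pB_ne_pD
  have hC' := h.mem1 h.hC pC_ne_pD
  -- a generic t in (0,1)
  obtain ⟨t, ht, htb⟩ : ∃ t ∈ Ioo (0:ℝ) 1, t ∉ bad S := by
    have hinf : (Ioo (0:ℝ) 1).Infinite := Ioo_infinite (by norm_num)
    obtain ⟨t, ht, ht'⟩ := (hinf.sdiff (bad_finite S)).nonempty
    exact ⟨t, ht, ht'⟩
  have htb' := h.bad_erase t htb
  obtain ⟨q1, hq1, q2, hq2, h1, h2, h3, h4, _⟩ := hull_edge sep_xy.neg h.tri1 t (gen_x htb')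
    ⟨pO, hO', by simpa using ht.1⟩ ⟨pB, hB', by simpa using ht.2⟩
  have hq12 : cx q1 < cx q2 := h1.trans h2
  have hD' : ∀ z ∈ S.erase pD, D cx cy q1 q2 z ≤ 0 := by
    intro z hz
    have := h4 z hz
    rw [D_neg] at this
    linarith
  have hline : ∀ z ∈ S, 1000 * cx z + 3 * cy z ≤ 3000 := by
    intro z hz
    have := h.right z hz
    simp only [D, LinearMap.neg_apply, cx_pC, cy_pC, cx_pD, cy_pD] at this
    linarith
  have hq1S := Finset.mem_of_mem_erase hq1
  have hq2S := Finset.mem_of_mem_erase hq2
  have hq1d := (Finset.mem_erase.1 hq1).1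
  have hq2d := (Finset.mem_erase.1 hq2).1
  -- d is strictly above the line q1 q2
  have hdpos : 0 < D cx cy q1 q2 pD := by
    by_contra hcon
    push Not at hcon
    have g1 : 0 < 3000 - 1000 * cx q1 - 3 * cy q1 := by
      have := h.low q1 hq1S hq1d
      have := ht.2
      linarith
    have g2 := hline q2 hq2S
    have g3 := hD' pC hC'
    have e1 : 0 ≤ (3 - t) * (- D cx cy q1 q2 pD) := mul_nonneg (by linarith [ht.2]) (by linarith)
    have e2 : 0 ≤ t * (- D cx cy q1 q2 pC) := mul_nonneg (by linarith [ht.1]) (by linarith)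
    have e3 : 0 < (cx q2 - t) * (3000 - 1000 * cx q1 - 3 * cy q1) := mul_pos (by linarith) g1
    have e4 : 0 ≤ (t - cx q1) * (3000 - 1000 * cx q2 - 3 * cy q2) :=
      mul_nonneg (by linarith) (by linarith)
    simp only [D, cx_pC, cy_pC, cx_pD, cy_pD] at e1 e2
    nlinarith
  have main : ∀ q ∈ S.erase pD, D cx cy q1 q2 q = 0 → s(q, pD) ∈ T := by
    intro q hq hDq
    have hqS := Finset.mem_of_mem_erase hq
    have hqd : q ≠ pD := (Finset.mem_erase.1 hq).1
    have hfree : ∀ z ∈ S, z ∈ segment ℝ q pD → z = q ∨ z = pD := by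
      intro z hz hzs
      by_cases hzd : z = pD
      · exact Or.inr hzd
      · left
        obtain ⟨τ, h0, h1', h2'⟩ := (mem_segment_iff _ _ _).1 hzs
        have e1 := hD' z (h.mem1 hz hzd)
        rw [h2', D_affine, hDq] at e1
        have : τ = 0 := by nlinarith
        rw [h2', this]; simp
    apply mem_of_free h.tri hqS h.hD hqd hfree
    intro f hf hne z hzf hz
    by_cases hd : pD ∈ f
    · obtain ⟨k, rfl, hh⟩ := h.hull f hf hd
      have hk : k ∈ S := h.tri.1.ends _ hf k (Sym2.mem_mk_left _ _)
      have hkd : k ≠ pD := ne_of_mem h.tri.1 hf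
      have hne' : cy k ≠ cy pD := by
        have := h.low k hk hkd
        simp
        linarith
      exact hull_nc sep_yx h.tri.1 hk h.hD hne' hf hh hqS h.hD hqd hfree hzf hz hne
    · have hz0' : D cx cy q1 q2 z ≤ 0 := by
        induction f using Sym2.ind with
        | _ a b =>
          have ha := h.tri.1.ends _ hf a (Sym2.mem_mk_left _ _)
          have hb := h.tri.1.ends _ hf b (Sym2.mem_mk_right _ _)
          have ha' : a ≠ pD := fun e => hd (e ▸ Sym2.mem_mk_left _ _)
          have hb' : b ≠ pD := fun e => hd (e ▸ Sym2.mem_mk_right _ _)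
          obtain ⟨τ, h0, h1', h2'⟩ := (mem_segment_iff _ _ _).1 hzf
          rw [h2', D_affine]
          have := hD' a (h.mem1 ha ha')
          have := hD' b (h.mem1 hb hb')
          nlinarith
      obtain ⟨τ, h0, h1', h2'⟩ := (mem_segment_iff _ _ _).1 hz
      rw [h2', D_affine, hDq] at hz0'
      have ht : τ = 0 := by nlinarith
      have hzq : z = q := by rw [h2', ht]; simp
      refine ⟨Or.inl hzq, ?_⟩
      rw [hzq] at hzf ⊢
      exact h.tri.1.empty f hf q hqS hzf
  have m1 := main q1 hq1 (D_self_left _ _ _ _)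
  have m2 := main q2 hq2 (D_self_right _ _ _ _)
  have hcxp := h.cxp
  have e1 : q1 = p := by
    rcases h.deg q1 m1 with e | e
    · exact e
    · exfalso
      rw [e] at h1
      simp at h1
      linarith [ht.2]
  have e2 : q2 = pC := by
    rcases h.deg q2 m2 with e | e
    · exfalso
      rw [e] at h2
      linarith [ht.1]
    · exact e
  rw [← e1, ← e2]
  exact h3

/-- Case `r = c`. -/
theorem Top.case_a (h : Top S T p pC) : KK < weight T := by
  classical
  have hO' := h.mem1 h.hO pO_ne_pD
  have hB' := h.mem1 h.hB pB_ne_pD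
  have hC' := h.mem1 h.hC pC_ne_pD
  have hp' := h.mem1 h.hp h.p_ne
  have hpc := h.edge_pc
  have hcxp := h.cxp
  have hpO : p ≠ pO := by
    rintro rfl
    have hb : pB ∈ segment ℝ pO pC := by
      rw [mem_segment_iff]
      refine ⟨1/3, by norm_num, by norm_num, ?_⟩
      apply plane_ext
      · simp only [map_add, map_smul, smul_eq_mul, cx_pO, cx_pB, cx_pC]; norm_num
      · simp only [map_add, map_smul, smul_eq_mul, cy_pO, cy_pB, cy_pC]; norm_num
    rcases free_of_mem h.tri1.1 hpc pB hB' hb with e | e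
    · exact pO_ne_pB e.symm
    · exact pB_ne_pC e
  set T2 := (T1 T).erase s(p, pC) with hT2
  have hw2 : weight (T1 T) = dist p pC + weight T2 := by
    unfold weight
    rw [hT2, ← Finset.add_sum_erase _ _ hpc, len_mk]
  have hcross2 : ∀ t, (crossSet cx t (T1 T)).card - 1 ≤ (crossSet cx t T2).card := by
    intro t
    have : (crossSet cx t (T1 T)).erase s(p, pC) ⊆ crossSet cx t T2 := by
      intro e he
      rw [Finset.mem_erase, mem_crossSet] at he
      rw [mem_crossSet, hT2, Finset.mem_erase]
      exact ⟨⟨he.1, he.2.1⟩, he.2.2⟩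
    exact (Finset.pred_card_le_card_erase).trans (Finset.card_le_card this)
  have key := main_ineq T2
    (![{z | 0 < cx z} ∩ {z | cx z < 1}, {z | 1 < cx z}, {z | cx z ≤ 0}] : Fin 3 → Set Plane)
    (by
      intro i
      fin_cases i
      · exact (convex_gt cx 0).inter (convex_lt cx 1)
      · exact convex_gt cx 1
      · exact convex_le cx 0)
    (by
      intro i j hij
      simp only [Function.onFun, Set.disjoint_left]
      intro z hz hz'
      fin_cases i <;> fin_cases j <;> simp at hij hz hz' <;>
        first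
        | exact absurd rfl hij
        | linarith)
    (![cx, cx, cy] : Fin 3 → (Plane →ₗ[ℝ] ℝ))
    (by
      intro i
      fin_cases i
      · exact abs_cx_sub_le
      · exact abs_cx_sub_le
      · exact abs_cy_sub_le)
    (![0, 1, 0] : Fin 3 → ℝ) (![1, 3, cy p] : Fin 3 → ℝ)
    (![2, 1, 1] : Fin 3 → ℕ) (bad S) (bad_finite S)
    (by
      intro i t h1 h2 h3
      have h3' := h.bad_erase t h3
      fin_cases i
      · simp only [Fin.zero_eta, Matrix.cons_val_zero] at h1 h2 ⊢
        refine le_trans ?_ (cross_le_filter (u := cx) (t := t) ?_)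
        · have := three_le_cross sep_xy h.tri1 h.noncol t (gen_x h3')
            ⟨pO, hO', p, hp', hpO.symm, by simpa using h1, by linarith⟩
            ⟨pB, hB', pC, hC', pB_ne_pC, by simpa using h2, by simp; linarith⟩
          have := hcross2 t
          omega
        · intro z hz
          exact ⟨by simpa [hz] using h1, by simpa [hz] using h2⟩
      · simp only [Fin.mk_one, Matrix.cons_val_one, Matrix.cons_val_zero] at h1 h2 ⊢
        refine le_trans ?_ (cross_le_filter (u := cx) (t := t) ?_)
        · have := two_le_cross sep_xy h.tri1 h.noncol t (gen_x h3')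
            ⟨pB, hB', by simpa using h1⟩
            ⟨pC, hC', by simpa using h2⟩
          have := hcross2 t
          omega
        · intro z hz
          show 1 < cx z
          rw [hz]; exact h1
      · simp at h1 h2 ⊢
        obtain ⟨a, ha, b, hb, k1, k2, k3, k4, k5⟩ := hull_edge sep_yx h.tri1 t (gen_y h3')
          ⟨pO, hO', by simpa using h1⟩ ⟨p, hp', h2⟩
        obtain ⟨z, hz, hzt, hzp⟩ := cross_point (v := cx) k1 k2
        have hne : s(a, b) ≠ s(p, pC) := by
          intro e
          rw [Sym2.eq_iff] at e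
          rcases e with ⟨e1, e2⟩ | ⟨e1, e2⟩
          · rw [e2] at k2; simp at k2; linarith
          · have := k4 pO hO'
            rw [e1, e2] at this
            simp only [D, cx_pO, cy_pO, cx_pC, cy_pC] at this
            linarith
        refine ⟨_, Finset.mem_filter.2 ⟨Finset.mem_erase.2 ⟨hne, k3⟩, z, hz, ?_, hzt⟩⟩
        have k6 := k5 pO hO' p hp' (by simpa using h1) h2
        rw [← hzp] at k6
        simp only [pos, cx_pO, cy_pO] at k6
        have k7 : (0 * (cy p - t) + cx p * (t - 0)) / (cy p - 0) ≤ 0 := by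
          apply div_nonpos_of_nonpos_of_nonneg
          · nlinarith
          · linarith
        exact k6.trans k7)
  simp only [Fin.sum_univ_three] at key
  simp at key
  have w := h.weight_eq
  have w1 : ∑ e ∈ T2, len e = weight T2 := rfl
  rw [w1] at key
  have d1 := dist_ge_y p pD
  rw [cy_pD] at d1
  have m1 : cy p ≤ max 0 (cy p) := le_max_right _ _
  have d2 : dist pC pD = Real.sqrt 1000009 := by
    rw [dist_eq', cx_pC, cy_pC, cx_pD, cy_pD]; norm_num
  have d3 : 3 < dist p pC := by
    rw [dist_eq', cx_pC, cy_pC]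
    apply Real.lt_sqrt_of_sq_lt
    by_contra hcon
    push Not at hcon
    have hx0 : cx p = 0 := by nlinarith [sq_nonneg (cy p), sq_nonneg (cx p)]
    have hy0 : cy p = 0 := by
      rw [hx0] at hcon
      have : cy p ^ 2 ≤ 0 := by nlinarith
      nlinarith [sq_nonneg (cy p)]
    exact hpO (plane_ext (by simpa using hx0) (by simpa using hy0))
  unfold KK
  linarith

/-- The lower bound: every Steiner triangulation of `{O, b, c, d}` has weight larger than `KK`. -/
theorem lower_bound {S : Finset Plane} {T : Finset (Sym2 Plane)} (hT : IsTriangulation S T)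
    (hO : pO ∈ S) (hB : pB ∈ S) (hC : pC ∈ S) (hD : pD ∈ S) : KK < weight T := by
  by_contra hcon
  push Not at hcon
  obtain ⟨p, hp, r, hr, hpr, hpT, hrT, hl, hri, hdeg, hlow⟩ := stepB hT hO hB hD hcon
  have h : Top S T p r := ⟨hT, hO, hB, hC, hD, hp, hr, hpr, hpT, hrT, hl, hri, hdeg, hlow⟩
  by_cases hrc : r = pC
  · subst hrc
    exact absurd h.case_a (not_lt.2 hcon)
  · exact absurd (h.case_b hrc) (not_lt.2 hcon)

end Pool.Agent.H695R2.Steiner
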