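import Mathlib
import Pool.Agent.H695R2.Steiner.Lower

set_option autoImplicit false

namespace Pool.Agent.H695R2.Steiner

open Set

/-- The Steiner point. -/
noncomputable def pU (ε : ℝ) : Plane := !₂[0, ε]

@[simp] theorem cx_pU (ε : ℝ) : cx (pU ε) = 0 := rfl
@[simp] theorem cy_pU (ε : ℝ) : cy (pU ε) = ε := rfl

attribute [local irreducible] pO pB pC pD pU

open Classical in
noncomputable def SE (ε : ℝ) : Finset Plane := {pO, pB, pC, pD, pU ε}

open Classical in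
noncomputable def TE (ε : ℝ) : Finset (Sym2 Plane) :=
  {s(pD, pU ε), s(pU ε, pO), s(pO, pB), s(pB, pC), s(pC, pD), s(pU ε, pB), s(pU ε, pC)}

variable {ε : ℝ}

theorem mem_SE {z : Plane} : z ∈ SE ε ↔ z = pO ∨ z = pB ∨ z = pC ∨ z = pD ∨ z = pU ε := by
  classical
  simp [SE]

theorem mem_TE {e : Sym2 Plane} : e ∈ TE ε ↔ e = s(pD, pU ε) ∨ e = s(pU ε, pO) ∨ e = s(pO, pB) ∨
    e = s(pB, pC) ∨ e = s(pC, pD) ∨ e = s(pU ε, pB) ∨ e = s(pU ε, pC) := by
  classical
  simp [TE]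

theorem seg1 (_h0 : 0 < ε) (h1 : ε < 1) {z : Plane} (hz : z ∈ seg s(pD, pU ε)) :
    cx z = 0 ∧ ε ≤ cy z ∧ cy z ≤ 1000 := by
  obtain ⟨t, ht0, ht1, rfl⟩ := (mem_segment_iff _ _ _).1 hz
  simp only [map_add, map_smul, smul_eq_mul, cx_pD, cx_pU, cy_pD, cy_pU]
  refine ⟨by ring, by nlinarith, by nlinarith⟩

theorem seg2 (h0 : 0 < ε) {z : Plane} (hz : z ∈ seg s(pU ε, pO)) :
    cx z = 0 ∧ 0 ≤ cy z ∧ cy z ≤ ε := by
  obtain ⟨t, ht0, ht1, rfl⟩ := (mem_segment_iff _ _ _).1 hz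
  simp only [map_add, map_smul, smul_eq_mul, cx_pO, cx_pU, cy_pO, cy_pU]
  refine ⟨by ring, by nlinarith, by nlinarith⟩

theorem seg3 {z : Plane} (hz : z ∈ seg s(pO, pB)) : cy z = 0 ∧ 0 ≤ cx z ∧ cx z ≤ 1 := by
  obtain ⟨t, ht0, ht1, rfl⟩ := (mem_segment_iff _ _ _).1 hz
  simp only [map_add, map_smul, smul_eq_mul, cx_pO, cx_pB, cy_pO, cy_pB]
  refine ⟨by ring, by nlinarith, by nlinarith⟩

theorem seg4 {z : Plane} (hz : z ∈ seg s(pB, pC)) : cy z = 0 ∧ 1 ≤ cx z ∧ cx z ≤ 3 := by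
  obtain ⟨t, ht0, ht1, rfl⟩ := (mem_segment_iff _ _ _).1 hz
  simp only [map_add, map_smul, smul_eq_mul, cx_pC, cx_pB, cy_pC, cy_pB]
  refine ⟨by ring, by nlinarith, by nlinarith⟩

theorem seg5 {z : Plane} (hz : z ∈ seg s(pC, pD)) :
    1000 * cx z + 3 * cy z = 3000 ∧ 0 ≤ cx z ∧ 0 ≤ cy z := by
  obtain ⟨t, ht0, ht1, rfl⟩ := (mem_segment_iff _ _ _).1 hz
  simp only [map_add, map_smul, smul_eq_mul, cx_pC, cx_pD, cy_pC, cy_pD]
  refine ⟨by ring, by nlinarith, by nlinarith⟩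

theorem seg6 {z : Plane} (hz : z ∈ seg s(pU ε, pB)) :
    cy z = ε * (1 - cx z) ∧ 0 ≤ cx z ∧ cx z ≤ 1 := by
  obtain ⟨t, ht0, ht1, rfl⟩ := (mem_segment_iff _ _ _).1 hz
  simp only [map_add, map_smul, smul_eq_mul, cx_pU, cx_pB, cy_pU, cy_pB]
  refine ⟨by ring, by nlinarith, by nlinarith⟩

theorem seg7 {z : Plane} (hz : z ∈ seg s(pU ε, pC)) :
    3 * cy z = ε * (3 - cx z) ∧ 0 ≤ cx z ∧ cx z ≤ 3 := by
  obtain ⟨t, ht0, ht1, rfl⟩ := (mem_segment_iff _ _ _).1 hz
  simp only [map_add, map_smul, smul_eq_mul, cx_pU, cx_pC, cy_pU, cy_pC]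
  refine ⟨by ring, by nlinarith, by nlinarith⟩

theorem eqO {z : Plane} (h0 : cx z = 0) (h1 : cy z = 0) : z = pO := plane_ext (h0.trans cx_pO.symm) (h1.trans cy_pO.symm)
theorem eqB {z : Plane} (h0 : cx z = 1) (h1 : cy z = 0) : z = pB := plane_ext (h0.trans cx_pB.symm) (h1.trans cy_pB.symm)
theorem eqC {z : Plane} (h0 : cx z = 3) (h1 : cy z = 0) : z = pC := plane_ext (h0.trans cx_pC.symm) (h1.trans cy_pC.symm)
theorem eqD {z : Plane} (h0 : cx z = 0) (h1 : cy z = 1000) : z = pD := plane_ext (h0.trans cx_pD.symm) (h1.trans cy_pD.symm)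
theorem eqU {z : Plane} (h0 : cx z = 0) (h1 : cy z = ε) : z = pU ε := plane_ext (h0.trans (cx_pU ε).symm) (h1.trans (cy_pU ε).symm)

theorem pU_ne_pO (h0 : 0 < ε) : pU ε ≠ pO := by
  intro h; have := congrArg cy h; simp at this; linarith
theorem pU_ne_pB : pU ε ≠ pB := by
  intro h; have := congrArg cx h; simp at this
theorem pU_ne_pC : pU ε ≠ pC := by
  intro h; have := congrArg cx h; norm_num at this
theorem pU_ne_pD (h1 : ε < 1) : pU ε ≠ pD := by
  intro h; have := congrArg cy h; simp at this; linarith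

/-- Two listed segments meet only in a common endpoint. -/
theorem meet12 (h0 : 0 < ε) (h1 : ε < 1) {z : Plane} (a : z ∈ seg s(pD, pU ε)) (b : z ∈ seg s(pU ε, pO)) :
    z ∈ s(pD, pU ε) ∧ z ∈ s(pU ε, pO) := by
  obtain ⟨a1, a2, a3⟩ := seg1 h0 h1 a
  obtain ⟨b1, b2, b3⟩ := seg2 h0 b
  have : z = pU ε := eqU a1 (le_antisymm b3 a2)
  subst this; simp
theorem meet13 (h0 : 0 < ε) (h1 : ε < 1) {z : Plane} (a : z ∈ seg s(pD, pU ε)) (b : z ∈ seg s(pO, pB)) :
    z ∈ s(pD, pU ε) ∧ z ∈ s(pO, pB) := by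
  obtain ⟨a1, a2, a3⟩ := seg1 h0 h1 a
  obtain ⟨b1, b2, b3⟩ := seg3 b
  linarith
theorem meet14 (h0 : 0 < ε) (h1 : ε < 1) {z : Plane} (a : z ∈ seg s(pD, pU ε)) (b : z ∈ seg s(pB, pC)) :
    z ∈ s(pD, pU ε) ∧ z ∈ s(pB, pC) := by
  obtain ⟨a1, a2, a3⟩ := seg1 h0 h1 a
  obtain ⟨b1, b2, b3⟩ := seg4 b
  linarith
theorem meet15 (h0 : 0 < ε) (h1 : ε < 1) {z : Plane} (a : z ∈ seg s(pD, pU ε)) (b : z ∈ seg s(pC, pD)) :
    z ∈ s(pD, pU ε) ∧ z ∈ s(pC, pD) := by
  obtain ⟨a1, a2, a3⟩ := seg1 h0 h1 a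
  obtain ⟨b1, b2, b3⟩ := seg5 b
  have : z = pD := eqD a1 (by linarith)
  subst this; simp
theorem meet16 (h0 : 0 < ε) (h1 : ε < 1) {z : Plane} (a : z ∈ seg s(pD, pU ε)) (b : z ∈ seg s(pU ε, pB)) :
    z ∈ s(pD, pU ε) ∧ z ∈ s(pU ε, pB) := by
  obtain ⟨a1, a2, a3⟩ := seg1 h0 h1 a
  obtain ⟨b1, b2, b3⟩ := seg6 b
  have : z = pU ε := eqU a1 (by rw [b1, a1]; ring)
  subst this; simp
theorem meet17 (h0 : 0 < ε) (h1 : ε < 1) {z : Plane} (a : z ∈ seg s(pD, pU ε)) (b : z ∈ seg s(pU ε, pC)) :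
    z ∈ s(pD, pU ε) ∧ z ∈ s(pU ε, pC) := by
  obtain ⟨a1, a2, a3⟩ := seg1 h0 h1 a
  obtain ⟨b1, b2, b3⟩ := seg7 b
  rw [a1] at b1
  have : z = pU ε := eqU a1 (by linarith)
  subst this; simp
theorem meet23 (h0 : 0 < ε) {z : Plane} (a : z ∈ seg s(pU ε, pO)) (b : z ∈ seg s(pO, pB)) :
    z ∈ s(pU ε, pO) ∧ z ∈ s(pO, pB) := by
  obtain ⟨a1, a2, a3⟩ := seg2 h0 a
  obtain ⟨b1, b2, b3⟩ := seg3 b
  have : z = pO := eqO a1 b1
  subst this; simp
theorem meet24 (h0 : 0 < ε) {z : Plane} (a : z ∈ seg s(pU ε, pO)) (b : z ∈ seg s(pB, pC)) :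
    z ∈ s(pU ε, pO) ∧ z ∈ s(pB, pC) := by
  obtain ⟨a1, a2, a3⟩ := seg2 h0 a
  obtain ⟨b1, b2, b3⟩ := seg4 b
  linarith
theorem meet25 (h0 : 0 < ε) (h1 : ε < 1) {z : Plane} (a : z ∈ seg s(pU ε, pO)) (b : z ∈ seg s(pC, pD)) :
    z ∈ s(pU ε, pO) ∧ z ∈ s(pC, pD) := by
  obtain ⟨a1, a2, a3⟩ := seg2 h0 a
  obtain ⟨b1, b2, b3⟩ := seg5 b
  linarith
theorem meet26 (h0 : 0 < ε) {z : Plane} (a : z ∈ seg s(pU ε, pO)) (b : z ∈ seg s(pU ε, pB)) :
    z ∈ s(pU ε, pO) ∧ z ∈ s(pU ε, pB) := by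
  obtain ⟨a1, a2, a3⟩ := seg2 h0 a
  obtain ⟨b1, b2, b3⟩ := seg6 b
  have : z = pU ε := eqU a1 (by rw [b1, a1]; ring)
  subst this; simp
theorem meet27 (h0 : 0 < ε) {z : Plane} (a : z ∈ seg s(pU ε, pO)) (b : z ∈ seg s(pU ε, pC)) :
    z ∈ s(pU ε, pO) ∧ z ∈ s(pU ε, pC) := by
  obtain ⟨a1, a2, a3⟩ := seg2 h0 a
  obtain ⟨b1, b2, b3⟩ := seg7 b
  rw [a1] at b1
  have : z = pU ε := eqU a1 (by linarith)
  subst this; simp
theorem meet34 {z : Plane} (a : z ∈ seg s(pO, pB)) (b : z ∈ seg s(pB, pC)) :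
    z ∈ s(pO, pB) ∧ z ∈ s(pB, pC) := by
  obtain ⟨a1, a2, a3⟩ := seg3 a
  obtain ⟨b1, b2, b3⟩ := seg4 b
  have : z = pB := eqB (le_antisymm a3 b2) a1
  subst this; simp
theorem meet35 {z : Plane} (a : z ∈ seg s(pO, pB)) (b : z ∈ seg s(pC, pD)) :
    z ∈ s(pO, pB) ∧ z ∈ s(pC, pD) := by
  obtain ⟨a1, a2, a3⟩ := seg3 a
  obtain ⟨b1, b2, b3⟩ := seg5 b
  linarith
theorem meet36 (h0 : 0 < ε) {z : Plane} (a : z ∈ seg s(pO, pB)) (b : z ∈ seg s(pU ε, pB)) :
    z ∈ s(pO, pB) ∧ z ∈ s(pU ε, pB) := by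
  obtain ⟨a1, a2, a3⟩ := seg3 a
  obtain ⟨b1, b2, b3⟩ := seg6 b
  have : cx z = 1 := by
    rw [a1] at b1
    rcases mul_eq_zero.1 b1.symm with h | h
    · linarith
    · linarith
  have : z = pB := eqB this a1
  subst this; simp
theorem meet37 (h0 : 0 < ε) {z : Plane} (a : z ∈ seg s(pO, pB)) (b : z ∈ seg s(pU ε, pC)) :
    z ∈ s(pO, pB) ∧ z ∈ s(pU ε, pC) := by
  obtain ⟨a1, a2, a3⟩ := seg3 a
  obtain ⟨b1, b2, b3⟩ := seg7 b
  exfalso
  have : 0 < ε * (3 - cx z) := mul_pos h0 (by linarith)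
  linarith
theorem meet45 {z : Plane} (a : z ∈ seg s(pB, pC)) (b : z ∈ seg s(pC, pD)) :
    z ∈ s(pB, pC) ∧ z ∈ s(pC, pD) := by
  obtain ⟨a1, a2, a3⟩ := seg4 a
  obtain ⟨b1, b2, b3⟩ := seg5 b
  have : z = pC := eqC (by linarith) a1
  subst this; simp
theorem meet46 (_h0 : 0 < ε) {z : Plane} (a : z ∈ seg s(pB, pC)) (b : z ∈ seg s(pU ε, pB)) :
    z ∈ s(pB, pC) ∧ z ∈ s(pU ε, pB) := by
  obtain ⟨a1, a2, a3⟩ := seg4 a
  obtain ⟨b1, b2, b3⟩ := seg6 b
  have : z = pB := eqB (le_antisymm b3 a2) a1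
  subst this; simp
theorem meet47 (h0 : 0 < ε) {z : Plane} (a : z ∈ seg s(pB, pC)) (b : z ∈ seg s(pU ε, pC)) :
    z ∈ s(pB, pC) ∧ z ∈ s(pU ε, pC) := by
  obtain ⟨a1, a2, a3⟩ := seg4 a
  obtain ⟨b1, b2, b3⟩ := seg7 b
  have : cx z = 3 := by
    rw [a1] at b1
    have : ε * (3 - cx z) = 0 := by linarith
    rcases mul_eq_zero.1 this with h | h
    · linarith
    · linarith
  have : z = pC := eqC this a1
  subst this; simp
theorem meet56 (h0 : 0 < ε) (h1 : ε < 1) {z : Plane} (a : z ∈ seg s(pC, pD)) (b : z ∈ seg s(pU ε, pB)) :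
    z ∈ s(pC, pD) ∧ z ∈ s(pU ε, pB) := by
  obtain ⟨a1, a2, a3⟩ := seg5 a
  obtain ⟨b1, b2, b3⟩ := seg6 b
  exfalso
  nlinarith
theorem meet57 (h0 : 0 < ε) (h1 : ε < 1) {z : Plane} (a : z ∈ seg s(pC, pD)) (b : z ∈ seg s(pU ε, pC)) :
    z ∈ s(pC, pD) ∧ z ∈ s(pU ε, pC) := by
  obtain ⟨a1, a2, a3⟩ := seg5 a
  obtain ⟨b1, b2, b3⟩ := seg7 b
  have : (1000 - ε) * (3 - cx z) = 0 := by linarith
  have hx : cx z = 3 := by
    rcases mul_eq_zero.1 this with h | h
    · linarith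
    · linarith
  have : z = pC := eqC hx (by linarith)
  subst this; simp
theorem meet67 (h0 : 0 < ε) {z : Plane} (a : z ∈ seg s(pU ε, pB)) (b : z ∈ seg s(pU ε, pC)) :
    z ∈ s(pU ε, pB) ∧ z ∈ s(pU ε, pC) := by
  obtain ⟨a1, a2, a3⟩ := seg6 a
  obtain ⟨b1, b2, b3⟩ := seg7 b
  have : ε * cx z = 0 := by linarith
  have hx : cx z = 0 := by
    rcases mul_eq_zero.1 this with h | h
    · linarith
    · linarith
  have : z = pU ε := eqU hx (by rw [a1, hx]; ring)
  subst this; simp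

theorem planarE (h0 : 0 < ε) (h1 : ε < 1) : IsPlanar (SE ε) (TE ε) := by
  refine ⟨?_, ?_, ?_, ?_⟩
  · intro e he
    rcases mem_TE.1 he with rfl | rfl | rfl | rfl | rfl | rfl | rfl <;> simp only [Sym2.mk_isDiag_iff]
    · exact (pU_ne_pD h1).symm
    · exact pU_ne_pO h0
    · exact pO_ne_pB
    · exact pB_ne_pC
    · exact pC_ne_pD
    · exact pU_ne_pB
    · exact pU_ne_pC
  · intro e he z hz
    rcases mem_TE.1 he with rfl | rfl | rfl | rfl | rfl | rfl | rfl <;>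
      rcases Sym2.mem_iff.1 hz with rfl | rfl <;> simp [mem_SE]
  · intro e he z hz hze
    rcases mem_TE.1 he with rfl | rfl | rfl | rfl | rfl | rfl | rfl
    · have := seg1 h0 h1 hze
      rcases mem_SE.1 hz with rfl | rfl | rfl | rfl | rfl <;> simp at this ⊢ <;> linarith
    · have := seg2 h0 hze
      rcases mem_SE.1 hz with rfl | rfl | rfl | rfl | rfl <;> simp at this ⊢ <;> linarith
    · have := seg3 hze
      rcases mem_SE.1 hz with rfl | rfl | rfl | rfl | rfl <;> simp at this ⊢ <;> linarith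
    · have := seg4 hze
      rcases mem_SE.1 hz with rfl | rfl | rfl | rfl | rfl <;> simp at this ⊢ <;>
        (try norm_num at this)
    · have := seg5 hze
      rcases mem_SE.1 hz with rfl | rfl | rfl | rfl | rfl <;> simp at this ⊢ <;>
        (try norm_num at this) <;> linarith
    · have := seg6 hze
      rcases mem_SE.1 hz with rfl | rfl | rfl | rfl | rfl <;> simp at this ⊢ <;>
        (try norm_num at this) <;> linarith
    · have := seg7 hze
      rcases mem_SE.1 hz with rfl | rfl | rfl | rfl | rfl <;> simp at this ⊢ <;>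
        (try norm_num at this) <;> linarith
  · intro e he f hf hne z hze hzf
    rcases mem_TE.1 he with rfl | rfl | rfl | rfl | rfl | rfl | rfl
    · rcases mem_TE.1 hf with rfl | rfl | rfl | rfl | rfl | rfl | rfl
      · exact absurd rfl hne
      · exact meet12 h0 h1 hze hzf
      · exact meet13 h0 h1 hze hzf
      · exact meet14 h0 h1 hze hzf
      · exact meet15 h0 h1 hze hzf
      · exact meet16 h0 h1 hze hzf
      · exact meet17 h0 h1 hze hzf
    · rcases mem_TE.1 hf with rfl | rfl | rfl | rfl | rfl | rfl | rfl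
      · exact (meet12 h0 h1 hzf hze).symm
      · exact absurd rfl hne
      · exact meet23 h0 hze hzf
      · exact meet24 h0 hze hzf
      · exact meet25 h0 h1 hze hzf
      · exact meet26 h0 hze hzf
      · exact meet27 h0 hze hzf
    · rcases mem_TE.1 hf with rfl | rfl | rfl | rfl | rfl | rfl | rfl
      · exact (meet13 h0 h1 hzf hze).symm
      · exact (meet23 h0 hzf hze).symm
      · exact absurd rfl hne
      · exact meet34  hze hzf
      · exact meet35  hze hzf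
      · exact meet36 h0 hze hzf
      · exact meet37 h0 hze hzf
    · rcases mem_TE.1 hf with rfl | rfl | rfl | rfl | rfl | rfl | rfl
      · exact (meet14 h0 h1 hzf hze).symm
      · exact (meet24 h0 hzf hze).symm
      · exact (meet34  hzf hze).symm
      · exact absurd rfl hne
      · exact meet45  hze hzf
      · exact meet46 h0 hze hzf
      · exact meet47 h0 hze hzf
    · rcases mem_TE.1 hf with rfl | rfl | rfl | rfl | rfl | rfl | rfl
      · exact (meet15 h0 h1 hzf hze).symm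
      · exact (meet25 h0 h1 hzf hze).symm
      · exact (meet35  hzf hze).symm
      · exact (meet45  hzf hze).symm
      · exact absurd rfl hne
      · exact meet56 h0 h1 hze hzf
      · exact meet57 h0 h1 hze hzf
    · rcases mem_TE.1 hf with rfl | rfl | rfl | rfl | rfl | rfl | rfl
      · exact (meet16 h0 h1 hzf hze).symm
      · exact (meet26 h0 hzf hze).symm
      · exact (meet36 h0 hzf hze).symm
      · exact (meet46 h0 hzf hze).symm
      · exact (meet56 h0 h1 hzf hze).symm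
      · exact absurd rfl hne
      · exact meet67 h0 hze hzf
    · rcases mem_TE.1 hf with rfl | rfl | rfl | rfl | rfl | rfl | rfl
      · exact (meet17 h0 h1 hzf hze).symm
      · exact (meet27 h0 hzf hze).symm
      · exact (meet37 h0 hzf hze).symm
      · exact (meet47 h0 hzf hze).symm
      · exact (meet57 h0 h1 hzf hze).symm
      · exact (meet67 h0 hzf hze).symm
      · exact absurd rfl hne

/-- Maximality. -/
theorem triE (h0 : 0 < ε) (h1 : ε < 1) : IsTriangulation (SE ε) (TE ε) := by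
  refine ⟨planarE h0 h1, ?_⟩
  intro T' hP hsub
  refine Finset.Subset.antisymm ?_ hsub
  -- the three missing pairs
  have mOD : s(pO, pD) ∉ T' := by
    intro h
    have hu : pU ε ∈ segment ℝ pO pD := by
      rw [mem_segment_iff]
      refine ⟨ε / 1000, by positivity, by linarith, ?_⟩
      apply plane_ext
      · simp
      · simp
    have := hP.empty _ h (pU ε) (by simp [mem_SE]) hu
    rcases Sym2.mem_iff.1 this with e | e
    · exact pU_ne_pO h0 e
    · exact pU_ne_pD h1 e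
  have mOC : s(pO, pC) ∉ T' := by
    intro h
    have hu : pB ∈ segment ℝ pO pC := by
      rw [mem_segment_iff]
      refine ⟨1/3, by norm_num, by norm_num, ?_⟩
      apply plane_ext
      · simp
      · simp
    have := hP.empty _ h pB (by simp [mem_SE]) hu
    rcases Sym2.mem_iff.1 this with e | e
    · exact pO_ne_pB e.symm
    · exact pB_ne_pC e
  have mBD : s(pB, pD) ∉ T' := by
    intro h
    have hUC : s(pU ε, pC) ∈ T' := hsub (mem_TE.2 (by simp))
    -- crossing point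
    set t := 2 * ε / (3000 - ε) with ht
    have hden : (0:ℝ) < 3000 - ε := by linarith
    have hz1 : (1 - t) • pB + t • pD ∈ segment ℝ pB pD := by
      rw [mem_segment_iff]
      refine ⟨t, by positivity, ?_, rfl⟩
      rw [ht, div_le_one hden]; linarith
    have hz2 : (1 - t) • pB + t • pD ∈ segment ℝ (pU ε) pC := by
      rw [mem_segment_iff]
      refine ⟨(1 - t) / 3, ?_, ?_, ?_⟩
      · have : t ≤ 1 := by rw [ht, div_le_one hden]; linarith
        linarith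
      · have : 0 ≤ t := by positivity
        linarith
      · apply plane_ext
        · simp only [map_add, map_smul, smul_eq_mul, cx_pB, cx_pD, cx_pU, cx_pC]; ring
        · simp only [map_add, map_smul, smul_eq_mul, cy_pB, cy_pD, cy_pU, cy_pC]
          rw [ht]
          field_simp
          ring
    have hne : s(pB, pD) ≠ s(pU ε, pC) := by
      intro e
      rw [Sym2.eq_iff] at e
      rcases e with ⟨e1, _⟩ | ⟨e1, _⟩
      · exact pU_ne_pB e1.symm
      · exact pB_ne_pC e1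
    have := hP.meet _ h _ hUC hne _ hz1 hz2
    have ht0 : 0 < t := by positivity
    have ht1 : t < 1 := by rw [ht, div_lt_one hden]; linarith
    rcases Sym2.mem_iff.1 this.1 with e | e
    · have := congrArg cy e
      simp at this
      linarith
    · have := congrArg cx e
      simp at this
      linarith
  have mDO : s(pD, pO) ∉ T' := by rw [Sym2.eq_swap]; exact mOD
  have mCO : s(pC, pO) ∉ T' := by rw [Sym2.eq_swap]; exact mOC
  have mDB : s(pD, pB) ∉ T' := by rw [Sym2.eq_swap]; exact mBD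
  intro e he
  induction e using Sym2.ind with
  | _ a b =>
    have ha := mem_SE.1 (hP.ends _ he a (Sym2.mem_mk_left _ _))
    have hb := mem_SE.1 (hP.ends _ he b (Sym2.mem_mk_right _ _))
    have hab := ne_of_mem hP he
    rw [mem_TE]
    rcases ha with rfl | rfl | rfl | rfl | rfl
    · rcases hb with rfl | rfl | rfl | rfl | rfl
      · exact absurd rfl hab
      · exact Or.inr (Or.inr (Or.inl rfl))
      · exact absurd he mOC
      · exact absurd he mOD
      · exact Or.inr (Or.inl Sym2.eq_swap)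
    · rcases hb with rfl | rfl | rfl | rfl | rfl
      · exact Or.inr (Or.inr (Or.inl Sym2.eq_swap))
      · exact absurd rfl hab
      · exact Or.inr (Or.inr (Or.inr (Or.inl rfl)))
      · exact absurd he mBD
      · exact Or.inr (Or.inr (Or.inr (Or.inr (Or.inr (Or.inl Sym2.eq_swap)))))
    · rcases hb with rfl | rfl | rfl | rfl | rfl
      · exact absurd he mCO
      · exact Or.inr (Or.inr (Or.inr (Or.inl Sym2.eq_swap)))
      · exact absurd rfl hab
      · exact Or.inr (Or.inr (Or.inr (Or.inr (Or.inl rfl))))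
      · exact Or.inr (Or.inr (Or.inr (Or.inr (Or.inr (Or.inr (Sym2.eq_swap))))))
    · rcases hb with rfl | rfl | rfl | rfl | rfl
      · exact absurd he mDO
      · exact absurd he mDB
      · exact Or.inr (Or.inr (Or.inr (Or.inr (Or.inl Sym2.eq_swap))))
      · exact absurd rfl hab
      · exact Or.inl rfl
    · rcases hb with rfl | rfl | rfl | rfl | rfl
      · exact Or.inr (Or.inl rfl)
      · exact Or.inr (Or.inr (Or.inr (Or.inr (Or.inr (Or.inl rfl)))))
      · exact Or.inr (Or.inr (Or.inr (Or.inr (Or.inr (Or.inr (rfl))))))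
      · exact Or.inl Sym2.eq_swap
      · exact absurd rfl hab

theorem weightE (h0 : 0 < ε) (h1 : ε < 1) :
    weight (TE ε) ≤ 1000 + 3 + Real.sqrt 1000009 + Real.sqrt (1 + ε ^ 2) + Real.sqrt (9 + ε ^ 2) := by
  classical
  have hle : weight (TE ε) ≤ len s(pD, pU ε) + (len s(pU ε, pO) + (len s(pO, pB) + (len s(pB, pC) +
      (len s(pC, pD) + (len s(pU ε, pB) + len s(pU ε, pC)))))) := by
    unfold weight TE
    have hi : ∀ (a : Sym2 Plane) (s : Finset (Sym2 Plane)),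
        ∑ e ∈ insert a s, len e ≤ len a + ∑ e ∈ s, len e := by
      intro a s
      by_cases h : a ∈ s
      · rw [Finset.insert_eq_of_mem h]
        have : 0 ≤ len a := by
          induction a using Sym2.ind with
          | _ x y => rw [len_mk]; exact dist_nonneg
        linarith
      · rw [Finset.sum_insert h]
    refine (hi _ _).trans (add_le_add le_rfl ?_)
    refine (hi _ _).trans (add_le_add le_rfl ?_)
    refine (hi _ _).trans (add_le_add le_rfl ?_)
    refine (hi _ _).trans (add_le_add le_rfl ?_)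
    refine (hi _ _).trans (add_le_add le_rfl ?_)
    refine (hi _ _).trans (add_le_add le_rfl ?_)
    rw [Finset.sum_singleton]
  refine hle.trans (le_of_eq ?_)
  simp only [len_mk, dist_eq', cx_pO, cy_pO, cx_pB, cy_pB, cx_pC, cy_pC, cx_pD, cy_pD, cx_pU, cy_pU]
  have e1 : Real.sqrt ((0 - 0) ^ 2 + (1000 - ε) ^ 2) = 1000 - ε := by
    rw [sub_self, zero_pow two_ne_zero, zero_add, Real.sqrt_sq (by linarith)]
  have e2 : Real.sqrt ((0 - 0) ^ 2 + (ε - 0) ^ 2) = ε := by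
    rw [sub_self, sub_zero, zero_pow two_ne_zero, zero_add, Real.sqrt_sq h0.le]
  have e3 : Real.sqrt ((0 - 1) ^ 2 + (0 - 0) ^ 2) = 1 := by norm_num
  have e4 : Real.sqrt (((1:ℝ) - 3) ^ 2 + (0 - 0) ^ 2) = 2 := by
    rw [show (((1:ℝ) - 3) ^ 2 + (0 - 0) ^ 2) = 2 ^ 2 by norm_num, Real.sqrt_sq (by norm_num)]
  have e5 : Real.sqrt (((3:ℝ) - 0) ^ 2 + (0 - 1000) ^ 2) = Real.sqrt 1000009 := by norm_num
  have e6 : Real.sqrt ((0 - 1) ^ 2 + (ε - 0) ^ 2) = Real.sqrt (1 + ε ^ 2) := by norm_num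
  have e7 : Real.sqrt ((0 - 3) ^ 2 + (ε - 0) ^ 2) = Real.sqrt (9 + ε ^ 2) := by norm_num
  rw [e1, e2, e3, e4, e5, e6, e7]
  ring

end Pool.Agent.H695R2.Steiner
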